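import Mathlib

/-!
Codes of separable Banach spaces: seminorms on `c₀₀` with the topology of pointwise convergence on
the rational finitely supported vectors.
-/

open Set Filter Topology

namespace Pool.Agent.Q100.Rec

/-- A finitely supported rational sequence, viewed in the real vector space `c₀₀`. -/
noncomputable def ratVec (v : ℕ →₀ ℚ) : ℕ →₀ ℝ := v.mapRange (fun q : ℚ => (q : ℝ)) (by simp)

/-- The set `P` of pseudonorms, each identified with its extension to a seminorm on `c₀₀`. -/
def Code : Type := Seminorm ℝ (ℕ →₀ ℝ)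

/-- The value of a code at a vector of `c₀₀`. -/
noncomputable def Code.val (p : Code) (x : ℕ →₀ ℝ) : ℝ := (show Seminorm ℝ (ℕ →₀ ℝ) from p) x

/-- The topology of pointwise convergence on the rational finitely supported sequences. -/
noncomputable instance : TopologicalSpace Code :=
  TopologicalSpace.induced (fun (p : Code) (v : ℕ →₀ ℚ) => p.val (ratVec v)) inferInstance

/-- The space `c₀₀`, to be equipped with the seminorm `p`. -/
def Pre (_ : Code) : Type := ℕ →₀ ℝ

noncomputable instance (p : Code) : SeminormedAddCommGroup (Pre p) :=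
  AddGroupSeminorm.toSeminormedAddCommGroup (E := ℕ →₀ ℝ)
    (show Seminorm ℝ (ℕ →₀ ℝ) from p).toAddGroupSeminorm

noncomputable instance (p : Code) : Module ℝ (Pre p) := inferInstanceAs (Module ℝ (ℕ →₀ ℝ))

noncomputable instance (p : Code) : NormedSpace ℝ (Pre p) where
  norm_smul_le := fun a x => (map_smul_eq_mul (show Seminorm ℝ (ℕ →₀ ℝ) from p) a x).le

/-- The Banach space `X_p`: the completion of `c₀₀` with the seminorm `p` (this is the completion
of the quotient normed space `c₀₀ / N_p`). -/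
abbrev X (p : Code) : Type := UniformSpace.Completion (Pre p)

/-- `P_∞`: the codes of infinite-dimensional spaces. -/
abbrev PInf : Type := {p : Code // ¬ FiniteDimensional ℝ (X p)}

/-- `B`: the codes in `P_∞` which are norms on `c₀₀`. -/
abbrev BB : Type := {p : Code // ¬ FiniteDimensional ℝ (X p) ∧ ∀ x, p.val x = 0 → x = 0}

lemma norm_pre (p : Code) (x : Pre p) : ‖x‖ = p.val x := rfl

/-- Representation of `X_p` inside a Hilbert space. -/
lemma exists_rep (p : Code) {H : Type*} [NormedAddCommGroup H] [NormedSpace ℝ H] [CompleteSpace H]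
    (T : (ℕ →₀ ℝ) →ₗ[ℝ] H) (hT : ∀ a, ‖T a‖ ≤ p.val a) (N : H → ℝ) (hN : Continuous N)
    (hpN : ∀ a, p.val a = N (T a)) :
    ∃ ψ : X p →ₗ[ℝ] H, (∀ x, ‖x‖ = N (ψ x)) ∧ ∀ x, ψ x ∈ closure (range T) := by
  let T' : Pre p →ₗ[ℝ] H := T
  let Tc : Pre p →L[ℝ] H := T'.mkContinuous 1 (fun x => by rw [one_mul]; exact hT x)
  have hd : DenseRange (UniformSpace.Completion.toComplL (𝕜 := ℝ) (E := Pre p)) :=
    UniformSpace.Completion.denseRange_coe
  have hu : IsUniformInducing (UniformSpace.Completion.toComplL (𝕜 := ℝ) (E := Pre p)) :=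
    UniformSpace.Completion.isUniformInducing_coe _
  let ψ : X p →L[ℝ] H := Tc.extend UniformSpace.Completion.toComplL
  have hψ : ∀ a : Pre p, ψ (a : X p) = T a := fun a =>
    ContinuousLinearMap.extend_eq Tc hd hu a
  refine ⟨ψ, fun x => ?_, fun x => ?_⟩
  · refine UniformSpace.Completion.induction_on x ?_ ?_
    · exact isClosed_eq continuous_norm (hN.comp ψ.continuous)
    · intro a
      refine (UniformSpace.Completion.norm_coe a).trans ((hpN a).trans ?_)
      show N (T a) = N (ψ (a : X p))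
      rw [hψ]
  · refine UniformSpace.Completion.induction_on x ?_ ?_
    · exact isClosed_closure.preimage ψ.continuous
    · intro a
      show ψ (a : X p) ∈ _
      rw [hψ]
      exact subset_closure ⟨a, rfl⟩

/-- The canonical map `c₀₀ → X_p`. -/
noncomputable def toX (p : Code) : (ℕ →₀ ℝ) →ₗ[ℝ] X p :=
  (UniformSpace.Completion.toComplL (𝕜 := ℝ) (E := Pre p)).toLinearMap

lemma norm_toX (p : Code) (a : ℕ →₀ ℝ) : ‖toX p a‖ = p.val a :=
  UniformSpace.Completion.norm_coe _

/-- An isometric embedding `X_q → X_p` in terms of linear maps on `c₀₀`. -/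
lemma exists_tau (p q : Code) {H : Type*} [NormedAddCommGroup H] [NormedSpace ℝ H]
    [CompleteSpace H] (T : (ℕ →₀ ℝ) →ₗ[ℝ] H) (hT : ∀ a, ‖T a‖ ≤ p.val a) (N : H → ℝ)
    (hN : Continuous N) (hpN : ∀ a, p.val a = N (T a)) (J : X q →ₗᵢ[ℝ] X p) :
    ∃ τ : (ℕ →₀ ℝ) →ₗ[ℝ] H, (∀ a, q.val a = N (τ a)) ∧ ∀ a, τ a ∈ closure (range T) := by
  obtain ⟨ψ, h1, h2⟩ := exists_rep p T hT N hN hpN
  refine ⟨ψ ∘ₗ (J.toLinearMap ∘ₗ toX q), fun a => ?_, fun a => h2 _⟩
  show q.val a = N (ψ (J (toX q a)))
  rw [← h1, J.norm_map, norm_toX]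

end Pool.Agent.Q100.Rec
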