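import Pool.Agent.Q100.Rec.Tower
import Pool.Agent.Q100.Rec.Defs

/-!
The family of codes over the weak unit ball of the Hilbert space.
-/

open Set Filter Topology Metric
open scoped InnerProductSpace

namespace Pool.Agent.Q100.Rec

/-- The unit ball of `ℓ²` with the topology of coordinatewise convergence. -/
abbrev KK : Type := {k : ℕ → ℝ // ∀ n, ∑ i ∈ Finset.range n, k i ^ 2 ≤ 1}

lemma KK_abs_le (k : KK) (i : ℕ) : |k.1 i| ≤ 1 := by
  have h1 := k.2 (i + 1)
  rw [Finset.sum_range_succ] at h1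
  have h2 : 0 ≤ ∑ j ∈ Finset.range i, k.1 j ^ 2 := Finset.sum_nonneg fun _ _ => sq_nonneg _
  have h3 : k.1 i ^ 2 ≤ 1 := by linarith
  exact (sq_le_one_iff_abs_le_one _).1 h3

instance : CompactSpace KK := by
  refine isCompact_iff_compactSpace (s := {k : ℕ → ℝ | ∀ n, ∑ i ∈ Finset.range n, k i ^ 2 ≤ 1}).1 ?_
  refine (isCompact_univ_pi (s := fun _ : ℕ => Icc (-1 : ℝ) 1) fun _ => isCompact_Icc).of_isClosed_subset
    ?_ ?_
  · rw [Set.ofPred_forall]
    refine isClosed_iInter fun n => isClosed_le ?_ continuous_const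
    exact continuous_finsetSum _ fun i _ => (continuous_apply i).pow 2
  · intro k hk i _
    exact abs_le.1 (KK_abs_le ⟨k, hk⟩ i)

lemma KK_summable (k : KK) : Summable fun i => k.1 i ^ 2 :=
  summable_of_sum_range_le (fun _ => sq_nonneg _) k.2

lemma KK_tsum_le (k : KK) : ∑' i, k.1 i ^ 2 ≤ 1 :=
  Real.tsum_le_of_sum_range_le (fun _ => sq_nonneg _) k.2

/-- The coordinates of the unit vector over `k`. -/
noncomputable def svf (k : KK) : ℕ → ℝ
  | 0 => Real.sqrt (1 - ∑' i, k.1 i ^ 2)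
  | i + 1 => k.1 i

lemma svf_memlp (k : KK) : Memℓp (svf k) 2 := by
  refine memℓp_gen ?_
  have h1 : Summable fun i => ‖svf k (i + 1)‖ ^ (2 : ENNReal).toReal := by
    refine (KK_summable k).congr fun i => ?_
    simp [svf]
  exact (summable_nat_add_iff 1).1 h1

variable {H : Type*} [NormedAddCommGroup H] [InnerProductSpace ℝ H]

/-- The unit vector over `k`. -/
noncomputable def sv (b : HilbertBasis ℕ ℝ H) (k : KK) : H := b.repr.symm ⟨svf k, svf_memlp k⟩

lemma inner_sv (b : HilbertBasis ℕ ℝ H) (k : KK) (n : ℕ) : ⟪b n, sv b k⟫_ℝ = svf k n := by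
  rw [← b.repr_apply_apply, sv, LinearIsometryEquiv.apply_symm_apply]

lemma norm_sv (b : HilbertBasis ℕ ℝ H) (k : KK) : ‖sv b k‖ = 1 := by
  have h := b.hasSum_inner_mul_inner (sv b k) (sv b k)
  rw [real_inner_self_eq_norm_sq] at h
  have h2 : HasSum (fun n => svf k n ^ 2) (‖sv b k‖ ^ 2) := by
    have h0 : (fun n => svf k n ^ 2) = fun n => ⟪sv b k, b n⟫_ℝ * ⟪b n, sv b k⟫_ℝ := by
      funext n
      rw [real_inner_comm (b n), inner_sv]
      ring
    rw [h0]
    exact h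
  have h3 := h2.tsum_eq
  rw [h2.summable.tsum_eq_zero_add] at h3
  simp only [svf] at h3
  rw [Real.sq_sqrt (by linarith [KK_tsum_le k])] at h3
  have h4 : ‖sv b k‖ ^ 2 = 1 := by linarith
  have h5 := norm_nonneg (sv b k)
  nlinarith

/-- The projection onto the orthogonal complement of `sv b k`. -/
noncomputable def Pk (b : HilbertBasis ℕ ℝ H) (k : KK) : H →L[ℝ] H :=
  ContinuousLinearMap.id ℝ H - (innerSL ℝ (sv b k)).smulRight (sv b k)

lemma Pk_apply (b : HilbertBasis ℕ ℝ H) (k : KK) (x : H) :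
    Pk b k x = x - ⟪sv b k, x⟫_ℝ • sv b k := by
  simp [Pk]

lemma inner_Pk (b : HilbertBasis ℕ ℝ H) (k : KK) (z x : H) :
    ⟪z, Pk b k x⟫_ℝ = ⟪z, x⟫_ℝ - ⟪sv b k, x⟫_ℝ * ⟪z, sv b k⟫_ℝ := by
  rw [Pk_apply, inner_sub_right, inner_smul_right]

lemma inner_sv_Pk (b : HilbertBasis ℕ ℝ H) (k : KK) (x : H) : ⟪sv b k, Pk b k x⟫_ℝ = 0 := by
  rw [inner_Pk, real_inner_self_eq_norm_sq, norm_sv]
  ring

lemma norm_Pk_sq (b : HilbertBasis ℕ ℝ H) (k : KK) (x : H) :
    ‖Pk b k x‖ ^ 2 = ‖x‖ ^ 2 - ⟪sv b k, x⟫_ℝ ^ 2 := by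
  have h1 : ⟪Pk b k x, sv b k⟫_ℝ = 0 := by rw [real_inner_comm, inner_sv_Pk]
  have h2 : ⟪Pk b k x, x⟫_ℝ = ‖x‖ ^ 2 - ⟪sv b k, x⟫_ℝ ^ 2 := by
    rw [real_inner_comm, inner_Pk, real_inner_self_eq_norm_sq, real_inner_comm (sv b k) x]
    ring
  rw [← real_inner_self_eq_norm_sq, inner_Pk, h1, h2]
  ring

lemma norm_Pk_le (b : HilbertBasis ℕ ℝ H) (k : KK) (x : H) : ‖Pk b k x‖ ≤ ‖x‖ := by
  have h := norm_Pk_sq b k x
  exact le_of_sq_le_sq (by nlinarith [sq_nonneg ⟪sv b k, x⟫_ℝ]) (norm_nonneg _)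

/-- The canonical map of `c₀₀` into the orthogonal complement of `b 0`. -/
noncomputable def iota (b : HilbertBasis ℕ ℝ H) : (ℕ →₀ ℝ) →ₗ[ℝ] H :=
  Finsupp.linearCombination ℝ fun i => b (i + 1)

lemma iota_apply (b : HilbertBasis ℕ ℝ H) (a : ℕ →₀ ℝ) :
    iota b a = ∑ i ∈ a.support, a i • b (i + 1) := rfl

lemma iota_injective (b : HilbertBasis ℕ ℝ H) (a : ℕ →₀ ℝ) (h : iota b a = 0) : a = 0 := by
  have h1 : LinearIndependent ℝ fun i : ℕ => b (i + 1) :=
    b.orthonormal.linearIndependent.comp (fun i : ℕ => i + 1) (fun i j h => by simpa using h)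
  exact linearIndependent_iff.1 h1 a h

lemma inner_sv_iota (b : HilbertBasis ℕ ℝ H) (k : KK) (a : ℕ →₀ ℝ) :
    ⟪sv b k, iota b a⟫_ℝ = ∑ i ∈ a.support, a i * k.1 i := by
  rw [iota_apply, inner_sum]
  refine Finset.sum_congr rfl fun i _ => ?_
  rw [inner_smul_right, real_inner_comm, inner_sv]
  rfl

lemma continuous_inner_sv_iota (b : HilbertBasis ℕ ℝ H) (a : ℕ →₀ ℝ) :
    Continuous fun k : KK => ⟪sv b k, iota b a⟫_ℝ := by
  simp only [inner_sv_iota]
  exact continuous_finsetSum _ fun i _ =>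
    continuous_const.mul ((continuous_apply i).comp continuous_subtype_val)

/-- The map `T_k` of `c₀₀` into the Hilbert space. -/
noncomputable def TT (b : HilbertBasis ℕ ℝ H) (k : KK) : (ℕ →₀ ℝ) →ₗ[ℝ] H :=
  (Pk b k : H →ₗ[ℝ] H) ∘ₗ iota b

lemma TT_apply (b : HilbertBasis ℕ ℝ H) (k : KK) (a : ℕ →₀ ℝ) :
    TT b k a = Pk b k (iota b a) := rfl

/-- The test vectors. -/
noncomputable def yy (b : HilbertBasis ℕ ℝ H) (n : ℕ) : H :=
  b ((Nat.unpair n).1 + 1) + b ((Nat.unpair n).2 + 1)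

lemma norm_yy_le (b : HilbertBasis ℕ ℝ H) (n : ℕ) : ‖yy b n‖ ≤ 2 := by
  refine (norm_add_le _ _).trans ?_
  rw [b.orthonormal.1, b.orthonormal.1]
  norm_num

lemma continuous_inner_yy_sv (b : HilbertBasis ℕ ℝ H) (n : ℕ) :
    Continuous fun k : KK => ⟪yy b n, sv b k⟫_ℝ := by
  simp only [yy, inner_add_left, inner_sv, svf]
  exact ((continuous_apply _).comp continuous_subtype_val).add
    ((continuous_apply _).comp continuous_subtype_val)

variable [CompleteSpace H]

lemma continuous_rho (b : HilbertBasis ℕ ℝ H) : Continuous (rho b) := by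
  have h : LipschitzWith 1 (rho b) := LipschitzWith.of_dist_le_mul fun x y => by
    rw [NNReal.coe_one, one_mul, Real.dist_eq, dist_eq_norm]
    exact (abs_sub_map_le_sub (rho b) x y).trans (rho_le b _)
  exact h.continuous

/-- The norm on the Hilbert space used for all the members of the family. -/
noncomputable def NN (b : HilbertBasis ℕ ℝ H) (x : H) : ℝ := ‖x‖ + rho b (Xi b (yy b) x)

lemma continuous_NN (b : HilbertBasis ℕ ℝ H) : Continuous (NN b) :=
  continuous_norm.add ((continuous_rho b).comp (Xi b (yy b)).continuous)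

/-- The code over `k`. -/
noncomputable def mu (b : HilbertBasis ℕ ℝ H) (k : KK) : Code :=
  (normSeminorm ℝ H).comp (TT b k) +
    ((rho b).comp (Xi b (yy b) : H →ₗ[ℝ] H)).comp (TT b k)

lemma mu_val (b : HilbertBasis ℕ ℝ H) (k : KK) (a : ℕ →₀ ℝ) :
    (mu b k).val a = NN b (TT b k a) := rfl

lemma continuous_mu_val (b : HilbertBasis ℕ ℝ H) (a : ℕ →₀ ℝ) :
    Continuous fun k : KK => (mu b k).val a := by
  simp only [mu_val, NN]
  refine Continuous.add ?_ ((continuous_rho b).comp ?_)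
  · have h : (fun k : KK => ‖TT b k a‖) =
        fun k => Real.sqrt (‖iota b a‖ ^ 2 - ⟪sv b k, iota b a⟫_ℝ ^ 2) := by
      funext k
      rw [TT_apply, ← norm_Pk_sq, Real.sqrt_sq (norm_nonneg _)]
    rw [h]
    exact (continuous_const.sub ((continuous_inner_sv_iota b a).pow 2)).sqrt
  · have h : (fun k : KK => Xi b (yy b) (TT b k a)) =
        fun k => ∑' n, (cw n * ⟪yy b n, TT b k a⟫_ℝ) • b n := by
      funext k
      exact (Xi_apply b (yy b) (norm_yy_le b) _).tsum_eq.symm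
    rw [h]
    refine continuous_tsum (u := fun n => 2 * ‖iota b a‖ * cw n) (fun n => ?_)
      (cw_summable.mul_left _) fun n k => ?_
    · refine Continuous.smul (continuous_const.mul ?_) continuous_const
      simp only [TT_apply, inner_Pk]
      exact continuous_const.sub ((continuous_inner_sv_iota b a).mul (continuous_inner_yy_sv b n))
    · rw [norm_smul, b.orthonormal.1, mul_one, norm_mul, Real.norm_of_nonneg (cw_pos n).le]
      have h1 : ‖⟪yy b n, TT b k a⟫_ℝ‖ ≤ 2 * ‖iota b a‖ := by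
        refine (norm_inner_le_norm _ _).trans ?_
        have h2 := norm_yy_le b n
        have h3 := norm_Pk_le b k (iota b a)
        rw [TT_apply]
        gcongr
      have := cw_pos n
      calc cw n * ‖⟪yy b n, TT b k a⟫_ℝ‖ ≤ cw n * (2 * ‖iota b a‖) := by gcongr
        _ = 2 * ‖iota b a‖ * cw n := by ring

lemma norm_TT_le (b : HilbertBasis ℕ ℝ H) (k : KK) (a : ℕ →₀ ℝ) :
    ‖TT b k a‖ ≤ (mu b k).val a := by
  rw [mu_val, NN]
  have : 0 ≤ rho b (Xi b (yy b) (TT b k a)) := apply_nonneg _ _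
  linarith

/-- All the spaces of the family are infinite-dimensional. -/
lemma mu_inf (b : HilbertBasis ℕ ℝ H) (k : KK) : ¬ FiniteDimensional ℝ (X (mu b k)) := by
  intro hfin
  let Λ : (ℕ →₀ ℝ) →ₗ[ℝ] X (mu b k) × ℝ :=
    (toX (mu b k)).prod ((innerₛₗ ℝ (sv b k)) ∘ₗ iota b)
  have hinj : Function.Injective Λ := by
    rw [← LinearMap.ker_eq_bot, LinearMap.ker_eq_bot']
    intro a ha
    have h1 : toX (mu b k) a = 0 := congrArg Prod.fst ha
    have h2 : ⟪sv b k, iota b a⟫_ℝ = 0 := congrArg Prod.snd ha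
    have h3 : ‖TT b k a‖ ≤ 0 := by
      refine (norm_TT_le b k a).trans ?_
      rw [← norm_toX, h1, norm_zero]
    have h4 : TT b k a = 0 := norm_le_zero_iff.1 h3
    rw [TT_apply, Pk_apply, h2, zero_smul, sub_zero] at h4
    exact iota_injective b a h4
  have hfin2 : FiniteDimensional ℝ (ℕ →₀ ℝ) := FiniteDimensional.of_injective Λ hinj
  have := Module.Finite.finite_basis (Finsupp.basisSingleOne (R := ℝ) (ι := ℕ))
  exact not_finite ℕ

end Pool.Agent.Q100.Rec
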