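import Mathlib

/-!
Lifting of continuous maps to `(ℝⁿ \ {0}) / ±1` over a compact contractible space.
-/

open Set Filter Topology Metric

namespace Pool.Agent.Q100.Rec

theorem sign_lift {K : Type*} [TopologicalSpace K] [CompactSpace K] (h : ℝ × K → K)
    (hc : Continuous h) (k0 : K) (h0 : ∀ k, h (0, k) = k0) (h1 : ∀ k, h (1, k) = k)
    (n : ℕ) (f : K → Fin n → ℝ) (hf : ∀ i j, Continuous fun k => f k i * f k j)
    (hne : ∀ k, ∃ i, f k i ≠ 0) :
    ∃ θ : K → ℝ, (∀ k, θ k = 1 ∨ θ k = -1) ∧ ∀ i, Continuous fun k => θ k * f k i := by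
  classical
  set C2 : K × K → ℝ := fun q => ∑ i, ∑ j, (f q.1 i * f q.1 j) * (f q.2 i * f q.2 j) with hC2
  have hC2c : Continuous C2 := by
    refine continuous_finsetSum _ fun i _ => continuous_finsetSum _ fun j _ => ?_
    exact ((hf i j).comp continuous_fst).mul ((hf i j).comp continuous_snd)
  have hC2sq : ∀ a b, C2 (a, b) = (∑ i, f a i * f b i) ^ 2 := by
    intro a b
    simp only [hC2]
    rw [sq, Finset.sum_mul_sum]
    exact Finset.sum_congr rfl fun i _ => Finset.sum_congr rfl fun j _ => by ring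
  have hdiag : ∀ a, 0 < C2 (a, a) := by
    intro a
    rw [hC2sq]
    have : 0 < ∑ i, f a i * f a i := by
      obtain ⟨i, hi⟩ := hne a
      exact Finset.sum_pos' (fun j _ => mul_self_nonneg _) ⟨i, Finset.mem_univ _,
        mul_self_pos.2 hi⟩
    positivity
  -- a fine subdivision
  obtain ⟨N, hN⟩ : ∃ N : ℕ, ∀ i < N + 1, ∀ k,
      0 < C2 (h ((i : ℝ) / (N + 1 : ℕ), k), h (((i + 1 : ℕ) : ℝ) / (N + 1 : ℕ), k)) := by
    by_contra hcon
    push Not at hcon
    choose i hi k hk using hcon
    set U : Ultrafilter ℕ := Filter.hyperfilter ℕ with hU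
    have hUt : (U : Filter ℕ) ≤ atTop := by
      rw [← Nat.cofinite_eq_atTop]; exact Filter.hyperfilter_le_cofinite
    obtain ⟨s, hs, hUs⟩ := (isCompact_Icc (a := (0 : ℝ)) (b := 1)).ultrafilter_le_nhds
      (U.map fun N => (i N : ℝ) / (N + 1 : ℕ)) (by
        rw [le_principal_iff]
        refine Filter.mem_map.2 (Filter.univ_mem' fun N => ?_)
        have h2 : (0 : ℝ) < ((N + 1 : ℕ) : ℝ) := by positivity
        refine ⟨by positivity, ?_⟩
        rw [div_le_one h2]
        exact_mod_cast (hi N).le)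
    obtain ⟨k', -, hUk⟩ := isCompact_univ.ultrafilter_le_nhds (U.map k)
      (by rw [principal_univ]; exact le_top)
    have hs1 : Tendsto (fun N => (i N : ℝ) / (N + 1 : ℕ)) (U : Filter ℕ) (𝓝 s) := hUs
    have hk1 : Tendsto k (U : Filter ℕ) (𝓝 k') := hUk
    have hs2 : Tendsto (fun N => ((i N + 1 : ℕ) : ℝ) / (N + 1 : ℕ)) (U : Filter ℕ) (𝓝 s) := by
      have h2 : Tendsto (fun N : ℕ => 1 / ((N + 1 : ℕ) : ℝ)) (U : Filter ℕ) (𝓝 0) := by
        have := (tendsto_one_div_add_atTop_nhds_zero_nat (𝕜 := ℝ)).mono_left hUt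
        refine this.congr fun N => ?_
        push_cast
        rfl
      have h3 := hs1.add h2
      rw [add_zero] at h3
      refine h3.congr fun N => ?_
      push_cast
      ring
    have hlim : Tendsto (fun N => C2 (h ((i N : ℝ) / (N + 1 : ℕ), k N),
        h (((i N + 1 : ℕ) : ℝ) / (N + 1 : ℕ), k N))) (U : Filter ℕ)
        (𝓝 (C2 (h (s, k'), h (s, k')))) :=
      (hC2c.tendsto _).comp (((hc.tendsto _).comp (hs1.prodMk_nhds hk1)).prodMk_nhds
        ((hc.tendsto _).comp (hs2.prodMk_nhds hk1)))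
    have := le_of_tendsto hlim (Eventually.of_forall hk)
    exact absurd (hdiag (h (s, k'))) (not_lt.2 this)
  -- the lifts
  set bb : ℕ → K → K := fun i k => h ((i : ℝ) / (N + 1 : ℕ), k) with hbb
  have hbc : ∀ i, Continuous (bb i) := fun i => hc.comp (continuous_const.prodMk continuous_id)
  have key : ∀ i ≤ N + 1, ∃ θ : K → ℝ, (∀ k, θ k = 1 ∨ θ k = -1) ∧
      ∀ l, Continuous fun k => θ k * f (bb i k) l := by
    intro i
    induction i with
    | zero =>
      intro _
      refine ⟨fun _ => 1, fun _ => Or.inl rfl, fun l => ?_⟩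
      have : (fun k => (1 : ℝ) * f (bb 0 k) l) = fun _ => f k0 l := by
        funext k
        simp only [hbb, Nat.cast_zero, zero_div, h0, one_mul]
      rw [this]
      exact continuous_const
    | succ i ih =>
      intro hi
      obtain ⟨θ, hθ, hθc⟩ := ih (by omega)
      have hpos : ∀ k, 0 < C2 (bb i k, bb (i + 1) k) := fun k => hN i (by omega) k
      have hcne : ∀ k, (∑ j, f (bb i k) j * f (bb (i + 1) k) j) ≠ 0 := by
        intro k h0
        have := hpos k
        rw [hC2sq, h0] at this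
        simp at this
      have habs : ∀ k, Real.sqrt (C2 (bb i k, bb (i + 1) k)) =
          |∑ j, f (bb i k) j * f (bb (i + 1) k) j| := by
        intro k; rw [hC2sq, Real.sqrt_sq_eq_abs]
      refine ⟨fun k => θ k * ((∑ j, f (bb i k) j * f (bb (i + 1) k) j) /
        |∑ j, f (bb i k) j * f (bb (i + 1) k) j|), fun k => ?_, fun l => ?_⟩
      · rcases lt_or_gt_of_ne (hcne k) with h2 | h2
        · simp only [abs_of_neg h2, div_neg, div_self h2.ne]
          rcases hθ k with h3 | h3 <;> rw [h3] <;> norm_num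
        · simp only [abs_of_pos h2, div_self h2.ne']
          rcases hθ k with h3 | h3 <;> rw [h3] <;> norm_num
      · have heq : (fun k => θ k * ((∑ j, f (bb i k) j * f (bb (i + 1) k) j) /
            |∑ j, f (bb i k) j * f (bb (i + 1) k) j|) * f (bb (i + 1) k) l) =
            fun k => (∑ j, (θ k * f (bb i k) j) * (f (bb (i + 1) k) j * f (bb (i + 1) k) l)) /
              Real.sqrt (C2 (bb i k, bb (i + 1) k)) := by
          funext k
          rw [habs]
          have h2 : ∑ j, (θ k * f (bb i k) j) * (f (bb (i + 1) k) j * f (bb (i + 1) k) l) =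
              θ k * (∑ j, f (bb i k) j * f (bb (i + 1) k) j) * f (bb (i + 1) k) l := by
            rw [Finset.mul_sum, Finset.sum_mul]
            exact Finset.sum_congr rfl fun j _ => by ring
          rw [h2]
          ring
        rw [heq]
        refine Continuous.div (continuous_finsetSum _ fun j _ => ?_) ?_ fun k => ?_
        · exact (hθc j).mul ((hf j l).comp (hbc (i + 1)))
        · exact (hC2c.comp ((hbc i).prodMk (hbc (i + 1)))).sqrt
        · exact (Real.sqrt_pos.2 (hpos k)).ne'
  obtain ⟨θ, hθ, hθc⟩ := key (N + 1) le_rfl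
  refine ⟨θ, hθ, fun l => ?_⟩
  have h2 : ∀ k, bb (N + 1) k = k := by
    intro k
    simp only [hbb]
    rw [div_self (by positivity : ((N + 1 : ℕ) : ℝ) ≠ 0), h1]
  have := hθc l
  simpa only [h2] using this

end Pool.Agent.Q100.Rec
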