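import Pool.Agent.Q100.Rec.Family
import Pool.Agent.Q100.Rec.Sign
import Pool.Agent.Helper133.Brouwer

/-!
No nowhere vanishing continuous section, and the main theorem.
-/

open Set Filter Topology Metric
open scoped InnerProductSpace

namespace Pool.Agent.Q100.Rec

variable {H : Type*} [NormedAddCommGroup H] [InnerProductSpace ℝ H]

lemma inner_basis_iota (b : HilbertBasis ℕ ℝ H) (a : ℕ →₀ ℝ) (i : ℕ) :
    ⟪b (i + 1), iota b a⟫_ℝ = a i := by
  rw [iota_apply, inner_sum]
  have h : ∀ j ∈ a.support, ⟪b (i + 1), a j • b (j + 1)⟫_ℝ = if j = i then a i else 0 := by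
    intro j _
    rw [inner_smul_right, orthonormal_iff_ite.1 b.orthonormal]
    by_cases hij : j = i
    · subst hij; simp
    · rw [if_neg (by omega), if_neg hij, mul_zero]
  rw [Finset.sum_congr rfl h, Finset.sum_ite_eq']
  by_cases hi : i ∈ a.support
  · rw [if_pos hi]
  · rw [if_neg hi, Finsupp.notMem_support_iff.1 hi]

lemma inner_basis_zero_iota (b : HilbertBasis ℕ ℝ H) (a : ℕ →₀ ℝ) :
    ⟪b 0, iota b a⟫_ℝ = 0 := by
  rw [iota_apply, inner_sum]
  refine Finset.sum_eq_zero fun j _ => ?_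
  rw [inner_smul_right, orthonormal_iff_ite.1 b.orthonormal, if_neg (by omega), mul_zero]

/-- `T_k` kills the vectors proportional to `k` when `k` has norm one. -/
lemma TT_eq_zero (b : HilbertBasis ℕ ℝ H) (k : KK) (a : ℕ →₀ ℝ) (c : ℝ)
    (hk : ∑' i, k.1 i ^ 2 = 1) (ha : ∀ i, a i = c * k.1 i) : TT b k a = 0 := by
  have h1 : iota b a = c • sv b k := by
    apply b.repr.injective
    ext n
    rw [b.repr_apply_apply, b.repr_apply_apply, inner_smul_right, inner_sv]
    cases n with
    | zero => rw [inner_basis_zero_iota]; simp [svf, hk]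
    | succ n => rw [inner_basis_iota, ha]; rfl
  rw [TT_apply, h1, Pk_apply, inner_smul_right, real_inner_self_eq_norm_sq, norm_sv]
  simp

/-- **No nowhere vanishing section.** -/
theorem no_section (b : HilbertBasis ℕ ℝ H) (w : KK → H)
    (hw : ∀ k, w k ∈ closure (range (TT b k)))
    (hwn : Continuous fun k => ‖w k‖) (hw0 : ∀ k, w k ≠ 0)
    (hwc : ∀ i, Continuous fun k => ⟪b (i + 1), w k⟫_ℝ) : False := by
  classical
  -- orthogonality
  have horth : ∀ k, ⟪sv b k, w k⟫_ℝ = 0 := by
    intro k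
    have hcl : IsClosed {x : H | ⟪sv b k, x⟫_ℝ = 0} :=
      isClosed_eq (continuous_const.inner continuous_id) continuous_const
    have hsub : range (TT b k) ⊆ {x : H | ⟪sv b k, x⟫_ℝ = 0} := by
      rintro _ ⟨a, rfl⟩
      exact inner_sv_Pk b k _
    exact closure_minimal hsub hcl (hw k)
  -- continuity of the distance to `T_k a`
  have hTn : ∀ a, Continuous fun k => ‖TT b k a‖ ^ 2 := by
    intro a
    simp only [TT_apply, norm_Pk_sq]
    exact continuous_const.sub ((continuous_inner_sv_iota b a).pow 2)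
  have hin : ∀ a k, ⟪w k, TT b k a⟫_ℝ = ∑ i ∈ a.support, a i * ⟪b (i + 1), w k⟫_ℝ := by
    intro a k
    rw [TT_apply, inner_Pk, real_inner_comm (sv b k) (w k), horth, mul_zero, sub_zero, iota_apply,
      inner_sum]
    refine Finset.sum_congr rfl fun i _ => ?_
    rw [inner_smul_right, real_inner_comm]
  have hψ : ∀ a, Continuous fun k => ‖w k - TT b k a‖ := by
    intro a
    have h1 : (fun k => ‖w k - TT b k a‖) = fun k =>
        Real.sqrt (‖w k‖ ^ 2 - 2 * (∑ i ∈ a.support, a i * ⟪b (i + 1), w k⟫_ℝ) +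
          ‖TT b k a‖ ^ 2) := by
      funext k
      rw [← hin, ← norm_sub_sq_real, Real.sqrt_sq (norm_nonneg _)]
    rw [h1]
    refine (((hwn.pow 2).sub (continuous_const.mul ?_)).add (hTn a)).sqrt
    exact continuous_finsetSum _ fun i _ => continuous_const.mul (hwc i)
  -- a lower bound
  obtain ⟨δ, hδ, hδw⟩ : ∃ δ : ℝ, 0 < δ ∧ ∀ k, δ ≤ ‖w k‖ := by
    have hne : (univ : Set KK).Nonempty := ⟨⟨fun _ => 0, fun n => by simp⟩, mem_univ _⟩
    obtain ⟨k1, -, hk1⟩ := isCompact_univ.exists_isMinOn hne hwn.continuousOn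
    exact ⟨‖w k1‖, norm_pos_iff.2 (hw0 k1), fun k => hk1 (mem_univ k)⟩
  -- finite cover
  obtain ⟨A, hA⟩ := isCompact_univ.elim_finite_subcover
    (fun a : ℕ →₀ ℝ => {k : KK | ‖w k - TT b k a‖ < δ})
    (fun a => isOpen_lt (hψ a) continuous_const) (by
      intro k _
      obtain ⟨_, ⟨a, rfl⟩, ha⟩ := Metric.mem_closure_iff.1 (hw k) δ hδ
      rw [dist_eq_norm] at ha
      exact mem_iUnion.2 ⟨a, ha⟩)
  set ρ : (ℕ →₀ ℝ) → KK → ℝ := fun a k => max 0 (δ - ‖w k - TT b k a‖) with hρ
  have hρc : ∀ a, Continuous (ρ a) := fun a => continuous_const.max (continuous_const.sub (hψ a))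
  have hρ0 : ∀ a k, 0 ≤ ρ a k := fun a k => le_max_left _ _
  set σ : KK → ℝ := fun k => ∑ a ∈ A, ρ a k with hσ
  have hσc : Continuous σ := continuous_finsetSum _ fun a _ => hρc a
  have hσ0 : ∀ k, 0 < σ k := by
    intro k
    obtain ⟨a, haA, ha⟩ := mem_iUnion₂.1 (hA (mem_univ k))
    refine Finset.sum_pos' (fun a _ => hρ0 a k) ⟨a, haA, ?_⟩
    exact lt_max_of_lt_right (by have : ‖w k - TT b k a‖ < δ := ha; linarith)
  set u : KK → (ℕ →₀ ℝ) := fun k => ∑ a ∈ A, (ρ a k / σ k) • a with hu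
  have hui : ∀ k i, u k i = ∑ a ∈ A, ρ a k / σ k * a i := by
    intro k i
    simp [hu, Finsupp.finsetSum_apply]
  have hsum1 : ∀ k, ∑ a ∈ A, ρ a k / σ k = 1 := by
    intro k
    rw [← Finset.sum_div, div_self (hσ0 k).ne']
  have hTu : ∀ k, TT b k (u k) ≠ 0 := by
    intro k h0
    have h1 : w k - TT b k (u k) = ∑ a ∈ A, (ρ a k / σ k) • (w k - TT b k a) := by
      simp only [hu, map_sum, map_smul, smul_sub, Finset.sum_sub_distrib]
      rw [← Finset.sum_smul, hsum1, one_smul]
    have h2 : ‖w k - TT b k (u k)‖ < δ := by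
      rw [h1]
      refine (norm_sum_le _ _).trans_lt ?_
      have h3 : ∑ a ∈ A, ρ a k / σ k * δ = δ := by rw [← Finset.sum_mul, hsum1, one_mul]
      calc ∑ a ∈ A, ‖(ρ a k / σ k) • (w k - TT b k a)‖ < ∑ a ∈ A, ρ a k / σ k * δ := by
            obtain ⟨a0, ha0, ha0'⟩ := mem_iUnion₂.1 (hA (mem_univ k))
            have ha0'' : ‖w k - TT b k a0‖ < δ := ha0'
            refine Finset.sum_lt_sum (fun a _ => ?_) ⟨a0, ha0, ?_⟩
            · rw [norm_smul, Real.norm_of_nonneg (div_nonneg (hρ0 a k) (hσ0 k).le)]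
              by_cases hlt : ‖w k - TT b k a‖ ≤ δ
              · have := div_nonneg (hρ0 a k) (hσ0 k).le
                gcongr
              · have : ρ a k = 0 := max_eq_left (by push Not at hlt; linarith)
                rw [this]; simp
            · rw [norm_smul, Real.norm_of_nonneg (div_nonneg (hρ0 a0 k) (hσ0 k).le)]
              have h4 : 0 < ρ a0 k / σ k :=
                div_pos (lt_max_of_lt_right (by linarith)) (hσ0 k)
              gcongr
        _ = δ := h3
    rw [h0, sub_zero] at h2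
    exact absurd (hδw k) (not_le.2 h2)
  -- finite dimensional reduction
  obtain ⟨n, hn⟩ : ∃ n : ℕ, ∀ a ∈ A, ∀ i, n ≤ i → a i = 0 := by
    refine ⟨(A.sup fun a => a.support.sup id) + 1, fun a ha i hi => ?_⟩
    by_contra hai
    have h1 : i ≤ a.support.sup id := Finset.le_sup (f := id) (Finsupp.mem_support_iff.2 hai)
    have h2 : a.support.sup id ≤ A.sup fun a => a.support.sup id :=
      Finset.le_sup (f := fun a : ℕ →₀ ℝ => a.support.sup id) ha
    omega
  have hu0 : ∀ k i, n ≤ i → u k i = 0 := by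
    intro k i hi
    rw [hui]
    exact Finset.sum_eq_zero fun a ha => by rw [hn a ha i hi, mul_zero]
  let EE := EuclideanSpace ℝ (Fin n)
  let rr : EE → EE := fun x => (max 1 ‖x‖)⁻¹ • x
  have hrc : Continuous rr :=
    ((continuous_const.max continuous_norm).inv₀ fun x =>
      (lt_of_lt_of_le one_pos (le_max_left _ _)).ne').smul continuous_id
  have hr1 : ∀ x, ‖rr x‖ ≤ 1 := by
    intro x
    have h1 : 0 < max 1 ‖x‖ := lt_of_lt_of_le one_pos (le_max_left _ _)
    simp only [rr]
    rw [norm_smul, norm_inv, Real.norm_of_nonneg h1.le, inv_mul_le_iff₀ h1, mul_one]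
    exact le_max_right _ _
  have hrfix : ∀ x, ‖x‖ = 1 → rr x = x := by
    intro x hx
    simp only [rr, hx, max_self, inv_one, one_smul]
  -- extension by zero
  let ext0 : EE → ℕ → ℝ := fun x i => if h : i < n then x ⟨i, h⟩ else 0
  have hext_sum : ∀ (x : EE) (m : ℕ), ∑ i ∈ Finset.range m, ext0 x i ^ 2 ≤ ‖x‖ ^ 2 := by
    intro x m
    rw [EuclideanSpace.norm_sq_eq]
    have h1 : ∑ i ∈ Finset.range n, ext0 x i ^ 2 = ∑ i : Fin n, ‖x i‖ ^ 2 := by
      rw [← Fin.sum_univ_eq_sum_range (fun i => ext0 x i ^ 2) n]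
      refine Finset.sum_congr rfl fun i _ => ?_
      simp [ext0]
    rw [← h1]
    rcases le_total m n with h2 | h2
    · exact Finset.sum_le_sum_of_subset_of_nonneg (Finset.range_mono h2) fun _ _ _ => sq_nonneg _
    · refine le_of_eq (Finset.sum_subset (Finset.range_mono h2) fun i _ hi => ?_).symm
      have : ¬ i < n := fun h => hi (Finset.mem_range.2 h)
      simp [ext0, this]
  let kx : EE → KK := fun x => ⟨ext0 (rr x), fun m =>
    (hext_sum (rr x) m).trans (by have := hr1 x; have := norm_nonneg (rr x); nlinarith)⟩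
  have hkc : Continuous kx := by
    refine Continuous.subtype_mk (continuous_pi fun i => ?_) _
    by_cases h : i < n
    · simp only [ext0, h, dite_true]
      exact (PiLp.continuous_apply 2 (fun _ : Fin n => ℝ) (⟨i, h⟩ : Fin n)).comp hrc
    · simp only [ext0, h, dite_false]
      exact continuous_const
  let UU : EE → EE := fun x => WithLp.toLp 2 fun i : Fin n => u (kx x) i
  have hUc : Continuous UU := by
    refine (PiLp.continuous_toLp 2 (fun _ : Fin n => ℝ)).comp (continuous_pi fun i => ?_)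
    simp only [hui]
    refine continuous_finsetSum _ fun a _ => Continuous.mul ?_ continuous_const
    exact ((hρc a).comp hkc).div (hσc.comp hkc) fun x => (hσ0 _).ne'
  have hUapp : ∀ x (i : Fin n), UU x i = u (kx x) i := fun x i => rfl
  have hU0 : ∀ x, UU x ≠ 0 := by
    intro x h0
    apply hTu (kx x)
    have h1 : u (kx x) = 0 := by
      ext i
      by_cases h : i < n
      · have := hUapp x ⟨i, h⟩
        rw [h0] at this
        simpa using this.symm
      · simpa using hu0 (kx x) i (not_lt.1 h)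
    rw [h1, map_zero]
  obtain ⟨x, hx⟩ := Pool.Agent.Helper133.Brouwer.brouwer (fun x : EE => ‖UU x‖⁻¹ • UU x)
    ((hUc.norm.inv₀ fun x => (norm_pos_iff.2 (hU0 x)).ne').smul hUc) 1 (fun x => by
      rw [norm_smul, norm_inv, norm_norm, inv_mul_cancel₀ (norm_pos_iff.2 (hU0 x)).ne'])
  have hUpos : 0 < ‖UU x‖ := norm_pos_iff.2 (hU0 x)
  have hx1 : ‖x‖ = 1 := by
    rw [← hx, norm_smul, norm_inv, norm_norm, inv_mul_cancel₀ hUpos.ne']
  have hx2 : UU x = ‖UU x‖ • x := by
    have h1 : ‖UU x‖ • (‖UU x‖⁻¹ • UU x) = ‖UU x‖ • x := congrArg (fun z => ‖UU x‖ • z) hx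
    rw [smul_smul, mul_inv_cancel₀ hUpos.ne', one_smul] at h1
    exact h1
  have hrx : rr x = x := hrfix x hx1
  apply hTu (kx x)
  refine TT_eq_zero b (kx x) (u (kx x)) ‖UU x‖ ?_ fun i => ?_
  · have h1 : ∑' i, (kx x).1 i ^ 2 = ∑ i ∈ Finset.range n, ext0 x i ^ 2 := by
      have h2 : (kx x).1 = ext0 x := by simp only [kx, hrx]
      rw [h2]
      refine tsum_eq_sum fun i hi => ?_
      have : ¬ i < n := fun h => hi (Finset.mem_range.2 h)
      simp [ext0, this]
    rw [h1, ← Fin.sum_univ_eq_sum_range (fun i => ext0 x i ^ 2) n]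
    have h3 : ∑ i : Fin n, ext0 x i ^ 2 = ‖x‖ ^ 2 := by
      rw [EuclideanSpace.norm_sq_eq]
      refine Finset.sum_congr rfl fun i _ => ?_
      simp [ext0]
    rw [h3, hx1, one_pow]
  · have h2 : (kx x).1 = ext0 x := by simp only [kx, hrx]
    rw [h2]
    by_cases h : i < n
    · have h3 := hUapp x ⟨i, h⟩
      rw [hx2] at h3
      simp only [ext0, h, dite_true]
      exact h3.symm
    · rw [hu0 (kx x) i (not_lt.1 h)]
      simp [ext0, h]

lemma Code.val_smul (p : Code) (c : ℝ) (x : ℕ →₀ ℝ) : p.val (c • x) = |c| * p.val x :=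
  map_smul_eq_mul (show Seminorm ℝ (ℕ →₀ ℝ) from p) c x

lemma Code.val_add_le (p : Code) (x y : ℕ →₀ ℝ) : p.val (x + y) ≤ p.val x + p.val y :=
  map_add_le_add (show Seminorm ℝ (ℕ →₀ ℝ) from p) x y

lemma Code.val_zero (p : Code) : p.val 0 = 0 := map_zero (show Seminorm ℝ (ℕ →₀ ℝ) from p)

lemma Code.val_nonneg (p : Code) (x : ℕ →₀ ℝ) : 0 ≤ p.val x :=
  apply_nonneg (show Seminorm ℝ (ℕ →₀ ℝ) from p) x

/-- Codes depending continuously on a parameter are continuous at all the real vectors. -/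
lemma code_cont {S : Type*} [TopologicalSpace S] [CompactSpace S] (ν : S → Code)
    (hν : Continuous ν) (v : ℕ →₀ ℝ) : Continuous fun k => (ν k).val v := by
  classical
  have hrat : ∀ w : ℕ →₀ ℚ, Continuous fun k => (ν k).val (ratVec w) := by
    intro w
    have h1 : Continuous fun (p : Code) (v : ℕ →₀ ℚ) => p.val (ratVec v) := continuous_induced_dom
    exact (continuous_apply w).comp (h1.comp hν)
  have hbas : ∀ i, Continuous fun k => (ν k).val (Finsupp.single i 1) := by
    intro i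
    have h1 : ratVec (Finsupp.single i 1) = Finsupp.single i 1 := by
      simp [ratVec, Finsupp.mapRange_single]
    have := hrat (Finsupp.single i 1)
    rwa [h1] at this
  have hsumc : Continuous fun k => ∑ i ∈ v.support, (ν k).val (Finsupp.single i 1) :=
    continuous_finsetSum _ fun i _ => hbas i
  obtain ⟨M, hM⟩ := (isCompact_range hsumc).bddAbove
  have hM' : ∀ k, ∑ i ∈ v.support, (ν k).val (Finsupp.single i 1) ≤ M := fun k => hM ⟨k, rfl⟩
  refine continuous_of_uniform_approx_of_continuous fun V hV => ?_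
  obtain ⟨ε, hε, hεV⟩ := Metric.mem_uniformity_dist.1 hV
  suffices hsuf : ∃ F : S → ℝ, Continuous F ∧ ∀ k, dist ((ν k).val v) (F k) < ε by
    obtain ⟨F, hF, hF2⟩ := hsuf
    exact ⟨F, hF, fun k => hεV (hF2 k)⟩
  set η : ℝ := ε / (2 * (|M| + 1)) with hη
  have hη0 : 0 < η := by positivity
  have hq : ∀ r : ℝ, ∃ q : ℚ, |r - q| < η ∧ (r = 0 → q = 0) := by
    intro r
    by_cases hr : r = 0
    · exact ⟨0, by simpa [hr] using hη0, fun _ => rfl⟩
    · obtain ⟨q, hq1, hq2⟩ := exists_rat_btwn (by linarith : r - η < r + η)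
      exact ⟨q, by rw [abs_lt]; constructor <;> linarith, fun h => absurd h hr⟩
  choose q hq1 hq2 using hq
  set w : ℕ →₀ ℚ := v.mapRange q (hq2 0 rfl) with hw
  refine ⟨fun k => (ν k).val (ratVec w), hrat w, fun k => ?_⟩
  rw [Real.dist_eq]
  have h1 : |(ν k).val v - (ν k).val (ratVec w)| ≤ (ν k).val (v - ratVec w) :=
    abs_sub_map_le_sub (show Seminorm ℝ (ℕ →₀ ℝ) from ν k) _ _
  have h2 : v - ratVec w = ∑ i ∈ v.support, (v i - (q (v i) : ℝ)) • Finsupp.single i (1 : ℝ) := by
    ext j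
    rw [Finsupp.finsetSum_apply]
    have h3 : ∀ i ∈ v.support, ((v i - (q (v i) : ℝ)) • Finsupp.single i (1 : ℝ)) j =
        if i = j then v j - (q (v j) : ℝ) else 0 := by
      intro i _
      by_cases hij : i = j
      · subst hij; simp
      · simp [hij]
    rw [Finset.sum_congr rfl h3, Finset.sum_ite_eq']
    by_cases hj : j ∈ v.support
    · rw [if_pos hj]; simp [ratVec, hw]
    · have h4 : v j = 0 := Finsupp.notMem_support_iff.1 hj
      rw [if_neg hj]
      simp [ratVec, hw, h4, hq2 0 rfl]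
  have h3 : (ν k).val (v - ratVec w) ≤ ∑ i ∈ v.support, η * (ν k).val (Finsupp.single i 1) := by
    rw [h2]
    refine (Finset.le_sum_of_subadditive (ν k).val (ν k).val_zero.le
      (ν k).val_add_le _ _).trans (Finset.sum_le_sum fun i _ => ?_)
    rw [Code.val_smul]
    exact mul_le_mul_of_nonneg_right (hq1 (v i)).le ((ν k).val_nonneg _)
  rw [← Finset.mul_sum] at h3
  have h4 : η * ∑ i ∈ v.support, (ν k).val (Finsupp.single i 1) ≤ η * (|M| + 1) := by
    have := hM' k
    have := le_abs_self M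
    gcongr
    linarith
  have h5 : η * (|M| + 1) < ε := by
    have h6 : η * (|M| + 1) = ε / 2 := by
      rw [hη]; field_simp
    rw [h6]; linarith
  linarith

/-- The scaling of the ball. -/
noncomputable def scal (q : ℝ × KK) : KK :=
  ⟨fun i => max 0 (min 1 q.1) * q.2.1 i, fun n => by
    have h1 : ∑ i ∈ Finset.range n, (max 0 (min 1 q.1) * q.2.1 i) ^ 2 =
        (max 0 (min 1 q.1)) ^ 2 * ∑ i ∈ Finset.range n, q.2.1 i ^ 2 := by
      rw [Finset.mul_sum]
      exact Finset.sum_congr rfl fun i _ => by ring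
    rw [h1]
    have h2 : 0 ≤ max 0 (min 1 q.1) := le_max_left _ _
    have h3 : max 0 (min 1 q.1) ≤ 1 := max_le zero_le_one (min_le_left _ _)
    have h4 := q.2.2 n
    have h5 : 0 ≤ ∑ i ∈ Finset.range n, q.2.1 i ^ 2 := Finset.sum_nonneg fun _ _ => sq_nonneg _
    nlinarith⟩

lemma scal_continuous : Continuous scal := by
  refine Continuous.subtype_mk (continuous_pi fun i => ?_) _
  exact (continuous_const.max (continuous_const.min continuous_fst)).mul
    ((continuous_apply i).comp (continuous_subtype_val.comp continuous_snd))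

/-- **Main theorem.** -/
theorem main [CompleteSpace H] (b : HilbertBasis ℕ ℝ H) :
    ¬ ∃ Φ : PInf → BB, Continuous Φ ∧ ∀ μ, Nonempty (X (Φ μ).1 →ₗᵢ[ℝ] X μ.1) := by
  classical
  rintro ⟨Φ, hΦ, hJ⟩
  have hmuc : Continuous fun k : KK => (⟨mu b k, mu_inf b k⟩ : PInf) :=
    Continuous.subtype_mk (continuous_induced_rng.2
      (continuous_pi fun v => continuous_mu_val b (ratVec v))) _
  set ν : KK → Code := fun k => (Φ ⟨mu b k, mu_inf b k⟩).1 with hν
  have hνc : Continuous ν := continuous_subtype_val.comp (hΦ.comp hmuc)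
  have hνn : ∀ k x, (ν k).val x = 0 → x = 0 := fun k => (Φ ⟨mu b k, mu_inf b k⟩).2.2
  have hex : ∀ k, ∃ τ : (ℕ →₀ ℝ) →ₗ[ℝ] H, (∀ a, (ν k).val a = NN b (τ a)) ∧
      ∀ a, τ a ∈ closure (range (TT b k)) := by
    intro k
    obtain ⟨J⟩ := hJ ⟨mu b k, mu_inf b k⟩
    exact exists_tau (mu b k) (ν k) (TT b k) (norm_TT_le b k) (NN b) (continuous_NN b)
      (mu_val b k) J
  choose τ hτ1 hτ2 using hex
  have horth : ∀ k v, ⟪sv b k, τ k v⟫_ℝ = 0 := by
    intro k v
    have hcl : IsClosed {x : H | ⟪sv b k, x⟫_ℝ = 0} :=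
      isClosed_eq (continuous_const.inner continuous_id) continuous_const
    have hsub : range (TT b k) ⊆ {x : H | ⟪sv b k, x⟫_ℝ = 0} := by
      rintro _ ⟨a, rfl⟩
      exact inner_sv_Pk b k _
    exact closure_minimal hsub hcl (hτ2 k v)
  have hin : ∀ k v a, ⟪τ k v, TT b k a⟫_ℝ = ∑ i ∈ a.support, a i * ⟪b (i + 1), τ k v⟫_ℝ := by
    intro k v a
    rw [TT_apply, inner_Pk, real_inner_comm (sv b k) (τ k v), horth, mul_zero, sub_zero,
      iota_apply, inner_sum]
    refine Finset.sum_congr rfl fun i _ => ?_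
    rw [inner_smul_right, real_inner_comm]
  have hzero : ∀ k v, (∀ i, ⟪b (i + 1), τ k v⟫_ℝ = 0) → v = 0 := by
    intro k v h
    have h1 : ⟪τ k v, τ k v⟫_ℝ = 0 := by
      have hcl : IsClosed {x : H | ⟪τ k v, x⟫_ℝ = 0} :=
        isClosed_eq (continuous_const.inner continuous_id) continuous_const
      have hsub : range (TT b k) ⊆ {x : H | ⟪τ k v, x⟫_ℝ = 0} := by
        rintro _ ⟨a, rfl⟩
        show ⟪τ k v, TT b k a⟫_ℝ = 0
        rw [hin]
        exact Finset.sum_eq_zero fun i _ => by rw [h i, mul_zero]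
      exact closure_minimal hsub hcl (hτ2 k v)
    have h2 : τ k v = 0 := inner_self_eq_zero.1 h1
    apply hνn k
    rw [hτ1, h2]
    simp [NN]
  have htower := tower b (yy b) (norm_yy_le b) τ (fun v => by
      have := code_cont ν hνc v
      simp only [hτ1] at this
      exact this)
    (fun k v h => hzero k v fun i => by
      have h1 := h (Nat.pair i i)
      rw [yy, Nat.unpair_pair, inner_add_left] at h1
      linarith)
    (fun i : ℕ => Finsupp.single i (1 : ℝ)) Finsupp.basisSingleOne.linearIndependent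
    (Finsupp.single 0 1)
  obtain ⟨hn1, hn2⟩ := htower
  set v0 : ℕ →₀ ℝ := Finsupp.single 0 1 with hv0
  have hv0ne : v0 ≠ 0 := by simp [hv0]
  set f : KK → ℕ → ℝ := fun k i => ⟪b (i + 1), τ k v0⟫_ℝ with hf
  have hsq : ∀ i j, Continuous fun k => (f k i + f k j) ^ 2 := by
    intro i j
    have h1 := hn2 (Nat.pair i j)
    simp only [yy, Nat.unpair_pair, inner_add_left] at h1
    exact h1
  have hff : ∀ i j, Continuous fun k => f k i * f k j := by
    intro i j
    have h1 : (fun k => f k i * f k j) = fun k =>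
        ((f k i + f k j) ^ 2 - (f k i + f k i) ^ 2 / 4 - (f k j + f k j) ^ 2 / 4) / 2 := by
      funext k; ring
    rw [h1]
    exact (((hsq i j).sub ((hsq i i).div_const _)).sub ((hsq j j).div_const _)).div_const _
  have hfne : ∀ k, ∃ i, f k i ≠ 0 := by
    intro k
    by_contra hcon
    push Not at hcon
    exact hv0ne (hzero k v0 hcon)
  -- finitely many coordinates suffice
  obtain ⟨A, hA⟩ := isCompact_univ.elim_finite_subcover
    (fun i : ℕ => {k : KK | f k i * f k i ≠ 0})
    (fun i => isOpen_ne_fun (hff i i) continuous_const) (by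
      intro k _
      obtain ⟨i, hi⟩ := hfne k
      exact mem_iUnion.2 ⟨i, mul_ne_zero hi hi⟩)
  set n := A.sup id + 1 with hn
  have hfn : ∀ k, ∃ i : Fin n, f k i ≠ 0 := by
    intro k
    obtain ⟨i, hiA, hi⟩ := mem_iUnion₂.1 (hA (mem_univ k))
    have h1 : i ≤ A.sup id := Finset.le_sup (f := id) hiA
    refine ⟨⟨i, by omega⟩, fun h0 => ?_⟩
    have h2 : f k i * f k i ≠ 0 := hi
    apply h2
    have h3 : f k i = 0 := h0
    rw [h3, zero_mul]
  obtain ⟨θ, hθ, hθc⟩ := sign_lift scal scal_continuous ⟨fun _ => 0, fun n => by simp⟩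
    (fun k => by
      apply Subtype.ext
      funext i
      simp [scal])
    (fun k => by
      apply Subtype.ext
      funext i
      simp [scal]) n (fun k i => f k i) (fun i j => hff i j) hfn
  have hθall : ∀ j, Continuous fun k => θ k * f k j := by
    intro j
    have hpos : ∀ k, 0 < ∑ i : Fin n, f k i * f k i := by
      intro k
      obtain ⟨i, hi⟩ := hfn k
      exact Finset.sum_pos' (fun j _ => mul_self_nonneg _) ⟨i, Finset.mem_univ _,
        mul_self_pos.2 hi⟩
    have h1 : (fun k => θ k * f k j) = fun k =>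
        (∑ i : Fin n, (θ k * f k i) * (f k i * f k j)) / ∑ i : Fin n, f k i * f k i := by
      funext k
      rw [eq_div_iff (hpos k).ne', Finset.mul_sum]
      exact Finset.sum_congr rfl fun i _ => by ring
    rw [h1]
    exact (continuous_finsetSum _ fun i _ => (hθc i).mul (hff i j)).div
      (continuous_finsetSum _ fun i _ => hff i i) fun k => (hpos k).ne'
  have hθabs : ∀ k, |θ k| = 1 := by
    intro k
    rcases hθ k with h | h <;> rw [h] <;> norm_num
  have hθne : ∀ k, θ k ≠ 0 := by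
    intro k h
    have := hθabs k
    rw [h] at this
    norm_num at this
  refine no_section b (fun k => θ k • τ k v0) (fun k => ?_) ?_ (fun k => ?_) (fun i => ?_)
  · have h1 : closure (range (TT b k)) = ((LinearMap.range (TT b k)).topologicalClosure : Set H) := by
      rw [Submodule.topologicalClosure_coe, LinearMap.coe_range]
    have h2 := hτ2 k v0
    rw [h1] at h2 ⊢
    exact Submodule.smul_mem _ _ h2
  · have h1 : (fun k => ‖θ k • τ k v0‖) = fun k => ‖τ k v0‖ := by
      funext k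
      rw [norm_smul, Real.norm_eq_abs, hθabs, one_mul]
    rw [h1]
    exact hn1
  · refine smul_ne_zero (hθne k) fun h0 => hv0ne (hzero k v0 fun i => ?_)
    rw [h0, inner_zero_right]
  · have h1 : (fun k => ⟪b (i + 1), θ k • τ k v0⟫_ℝ) = fun k => θ k * f k i := by
      funext k
      rw [inner_smul_right]
    rw [h1]
    exact hθall i

end Pool.Agent.Q100.Rec
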