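import Mathlib

/-!
Recognition of the compact part of a norm `p + r`, `p` Hilbertian and `r` compact relative to `p`,
in continuous families.
-/

open Set Filter Topology Metric

namespace Pool.Agent.Q100.Rec

variable {S : Type*} [TopologicalSpace S] {E : Type*} [AddCommGroup E] [Module ℝ E]

/-- Upper bound for the second difference of a seminorm with parallelogram law. -/
lemma par_bound (p : Seminorm ℝ E)
    (hpar : ∀ x y, (p (x + y)) ^ 2 + (p (x - y)) ^ 2 = 2 * (p x) ^ 2 + 2 * (p y) ^ 2)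
    (x h : E) (hx : 0 < p x) :
    p (x + h) + p (x - h) ≤ 2 * p x + (p h) ^ 2 / p x := by
  have h1 := hpar x h
  have h2 : 0 ≤ p (x + h) := apply_nonneg _ _
  have h3 : 0 ≤ p (x - h) := apply_nonneg _ _
  have h4 : 0 ≤ p h := apply_nonneg _ _
  have h5 : 0 ≤ (p h) ^ 2 / p x := by positivity
  have h6 : p x * ((p h) ^ 2 / p x) = (p h) ^ 2 := by field_simp
  nlinarith [sq_nonneg (p (x + h) - p (x - h)), sq_nonneg ((p h) ^ 2 / p x)]

/-- Joint continuity of a continuous family of seminorms on finite-dimensional sets. -/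
lemma joint_cont (ν : S → Seminorm ℝ E) (hν : ∀ v, Continuous fun k => ν k v) {n : ℕ}
    (e : Fin n → E) (h : E) :
    Continuous fun q : S × (Fin n → ℝ) => ν q.1 (h + ∑ i, q.2 i • e i) := by
  rw [continuous_iff_continuousAt]
  rintro ⟨k0, a0⟩
  set w0 : E := h + ∑ i, a0 i • e i with hw0
  have hR : Continuous fun q : S × (Fin n → ℝ) =>
      ∑ i, |q.2 i - a0 i| * ν q.1 (e i) + |ν q.1 w0 - ν k0 w0| := by
    have h1 : ∀ v, Continuous fun q : S × (Fin n → ℝ) => ν q.1 v :=
      fun v => (hν v).comp continuous_fst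
    refine Continuous.add (continuous_finsetSum _ fun i _ => Continuous.mul ?_ (h1 _))
      ((h1 w0).sub continuous_const).abs
    exact (((continuous_apply i).comp continuous_snd).sub continuous_const).abs
  have hR0 : Tendsto (fun q : S × (Fin n → ℝ) =>
      ∑ i, |q.2 i - a0 i| * ν q.1 (e i) + |ν q.1 w0 - ν k0 w0|) (𝓝 (k0, a0)) (𝓝 0) := by
    have := hR.tendsto (k0, a0)
    simpa using this
  refine tendsto_iff_dist_tendsto_zero.2 (squeeze_zero (fun _ => dist_nonneg) ?_ hR0)
  rintro ⟨k, a⟩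
  rw [Real.dist_eq]
  simp only
  have h1 : |ν k (h + ∑ i, a i • e i) - ν k w0| ≤ ∑ i, |a i - a0 i| * ν k (e i) := by
    have h2 : |ν k (h + ∑ i, a i • e i) - ν k w0| ≤ ν k ((h + ∑ i, a i • e i) - w0) :=
      abs_sub_map_le_sub _ _ _
    have h3 : (h + ∑ i, a i • e i) - w0 = ∑ i, (a i - a0 i) • e i := by
      rw [hw0, add_sub_add_left_eq_sub, ← Finset.sum_sub_distrib]
      exact Finset.sum_congr rfl fun i _ => by rw [sub_smul]
    rw [h3] at h2
    refine h2.trans ((Finset.le_sum_of_subadditive (ν k) (map_zero _).le (map_add_le_add _)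
      _ _).trans (Finset.sum_le_sum fun i _ => ?_))
    rw [map_smul_eq_mul, Real.norm_eq_abs]
  calc |ν k (h + ∑ i, a i • e i) - ν k0 (h + ∑ i, a0 i • e i)|
      = |(ν k (h + ∑ i, a i • e i) - ν k w0) + (ν k w0 - ν k0 w0)| := by
        rw [hw0]; ring_nf
    _ ≤ _ := (abs_add_le _ _).trans (by gcongr)

/-- Upper estimate of the compact part. -/
lemma upper_est (p r : Seminorm ℝ E)
    (hpar : ∀ x y, (p (x + y)) ^ 2 + (p (x - y)) ^ 2 = 2 * (p x) ^ 2 + 2 * (p y) ^ 2)
    (hrp : ∀ x, r x ≤ p x) (x h : E) (R : ℝ) (hR : 0 < R) (hx : (p + r) x = R) :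
    (p + r) (x + h) + (p + r) (x - h) - 2 * R ≤ 2 * r h + 2 * ((p + r) h) ^ 2 / R := by
  simp only [_root_.add_apply] at *
  have h1 := hrp x
  have hpx : R / 2 ≤ p x := by linarith
  have hpx0 : 0 < p x := by linarith
  have h2 := par_bound p hpar x h hpx0
  have h3 : r (x + h) ≤ r x + r h := map_add_le_add _ _ _
  have h4 : r (x - h) ≤ r x + r h := map_sub_le_add _ _ _
  have h5 : (p h) ^ 2 / p x ≤ 2 * (p h + r h) ^ 2 / R := by
    rw [div_le_div_iff₀ hpx0 hR]
    have h6 : 0 ≤ p h := apply_nonneg _ _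
    have h7 : 0 ≤ r h := apply_nonneg _ _
    have h8 : (p h) ^ 2 ≤ (p h + r h) ^ 2 := by nlinarith
    have h9 : (p h) ^ 2 * R ≤ (p h + r h) ^ 2 * R := by gcongr
    nlinarith [sq_nonneg (p h + r h)]
  linarith

/-- Lower estimate of the compact part at flat vectors. -/
lemma lower_est (p r : Seminorm ℝ E) (x h : E) (R δ : ℝ) (hx : (p + r) x = R) (hδ : 0 ≤ δ)
    (hflat : r x ≤ δ * p x) :
    2 * r h ≤ (p + r) (x + h) + (p + r) (x - h) - 2 * R + 4 * (δ * R) := by
  simp only [_root_.add_apply] at *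
  have h1 : 2 * p x ≤ p (x + h) + p (x - h) := by
    have h2 : p ((x + h) + (x - h)) ≤ p (x + h) + p (x - h) := map_add_le_add _ _ _
    have h3 : (x + h) + (x - h) = (2 : ℝ) • x := by rw [two_smul]; abel
    rw [h3, map_smul_eq_mul] at h2
    simpa using h2
  have h2 : r h ≤ r (x + h) + r x := by
    have := map_sub_le_add r (x + h) x
    simpa using this
  have h3 : r h ≤ r (x - h) + r x := by
    have := map_sub_le_add r x (x - h)
    have h4 : x - (x - h) = h := by abel
    rw [h4] at this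
    linarith
  have h4 : r x ≤ δ * R := by
    refine hflat.trans ?_
    have : 0 ≤ r x := apply_nonneg _ _
    gcongr
    linarith
  linarith

/-- Existence of flat vectors of prescribed norm in the span of the first vectors. -/
lemma exists_flat (p r : Seminorm ℝ E) (hnorm : ∀ v, p v = 0 → v = 0)
    (e : ℕ → E) (he : LinearIndependent ℝ e) (δ : ℝ) (m : ℕ) (ℓ : E →ₗ[ℝ] (Fin m → ℝ))
    (hℓ : ∀ x, ℓ x = 0 → r x ≤ δ * p x) :
    ∃ a : Fin (m + 1) → ℝ, ‖a‖ = 1 ∧ 0 < (p + r) (∑ i, a i • e i) ∧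
      ∀ c : ℝ, r (∑ i, (c * a i) • e i) ≤ δ * p (∑ i, (c * a i) • e i) := by
  classical
  let L : (Fin (m + 1) → ℝ) →ₗ[ℝ] E :=
    { toFun := fun a => ∑ i, a i • e i
      map_add' := by intro a b; simp [add_smul, Finset.sum_add_distrib]
      map_smul' := by intro c a; simp [mul_smul, Finset.smul_sum] }
  have hLinj : ∀ a, L a = 0 → a = 0 := by
    intro a ha
    have h1 : LinearIndependent ℝ (fun i : Fin (m + 1) => e i) :=
      he.comp _ Fin.val_injective
    funext i
    exact Fintype.linearIndependent_iff.1 h1 a ha i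
  obtain ⟨a, ha, ha0⟩ : ∃ a, ℓ (L a) = 0 ∧ a ≠ 0 := by
    by_contra hcon
    push Not at hcon
    have hinj : Function.Injective (ℓ ∘ₗ L) := by
      rw [← LinearMap.ker_eq_bot, LinearMap.ker_eq_bot']
      exact hcon
    have := LinearMap.finrank_le_finrank_of_injective hinj
    simp at this
  have hna : 0 < ‖a‖ := norm_pos_iff.2 ha0
  refine ⟨‖a‖⁻¹ • a, ?_, ?_, ?_⟩
  · rw [norm_smul, norm_inv, norm_norm, inv_mul_cancel₀ hna.ne']
  · have h1 : L (‖a‖⁻¹ • a) ≠ 0 := by
      intro h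
      have := hLinj _ h
      rw [smul_eq_zero] at this
      rcases this with h2 | h2
      · exact (inv_ne_zero hna.ne') h2
      · exact ha0 h2
    have h2 : p (L (‖a‖⁻¹ • a)) ≠ 0 := fun h => h1 (hnorm _ h)
    have h3 : 0 ≤ p (L (‖a‖⁻¹ • a)) := apply_nonneg _ _
    have h4 : 0 ≤ r (L (‖a‖⁻¹ • a)) := apply_nonneg _ _
    have h5 : 0 < p (L (‖a‖⁻¹ • a)) := lt_of_le_of_ne h3 (Ne.symm h2)
    show 0 < p (L (‖a‖⁻¹ • a)) + r (L (‖a‖⁻¹ • a))
    linarith
  · intro c
    have h1 : ∑ i, (c * (‖a‖⁻¹ • a) i) • e i = (c * ‖a‖⁻¹) • L a := by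
      show _ = (c * ‖a‖⁻¹) • ∑ i, a i • e i
      rw [Finset.smul_sum]
      refine Finset.sum_congr rfl fun i _ => ?_
      rw [smul_smul, Pi.smul_apply, smul_eq_mul, mul_assoc]
    rw [h1]
    apply hℓ
    rw [map_smul, ha, smul_zero]

/-- **Recognition lemma.** In a continuous family of norms `p_k + r_k`, with `p_k` Hilbertian and
`r_k` uniformly compact relative to `p_k`, the two parts depend continuously on `k`. -/
theorem recog (p r : S → Seminorm ℝ E)
    (hpar : ∀ k x y, (p k (x + y)) ^ 2 + (p k (x - y)) ^ 2 = 2 * (p k x) ^ 2 + 2 * (p k y) ^ 2)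
    (hcont : ∀ v, Continuous fun k => (p k + r k) v)
    (hnorm : ∀ k v, p k v = 0 → v = 0)
    (hrp : ∀ k v, r k v ≤ p k v)
    (e : ℕ → E) (he : LinearIndependent ℝ e)
    (hcpt : ∀ δ : ℝ, 0 < δ → ∃ m : ℕ, ∀ k, ∃ ℓ : E →ₗ[ℝ] (Fin m → ℝ),
      ∀ x, ℓ x = 0 → r k x ≤ δ * p k x) (h : E) :
    Continuous fun k => r k h := by
  classical
  rw [continuous_iff_continuousAt]
  intro k0
  -- choice of the parameters
  have hpar' : ∀ ε : ℝ, 0 < ε → ∃ R δ : ℝ, 0 < R ∧ 0 < δ ∧
      2 * ((p k0 + r k0) h) ^ 2 / R + 4 * (δ * R) < 2 * ε := by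
    intro ε hε
    have hN : 0 ≤ ((p k0 + r k0) h) ^ 2 := sq_nonneg _
    refine ⟨4 * (((p k0 + r k0) h) ^ 2 + 1) / ε, ε / (8 * (4 * (((p k0 + r k0) h) ^ 2 + 1) / ε)),
      by positivity, by positivity, ?_⟩
    set N := ((p k0 + r k0) h) ^ 2
    have h1 : 2 * N / (4 * (N + 1) / ε) ≤ ε / 2 := by
      rw [div_le_div_iff₀ (by positivity) (by norm_num)]
      have : ε * (4 * (N + 1) / ε) = 4 * (N + 1) := by field_simp
      rw [this]; linarith
    have h2 : 4 * (ε / (8 * (4 * (N + 1) / ε)) * (4 * (N + 1) / ε)) = ε / 2 := by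
      field_simp
      ring
    rw [h2]
    linarith
  refine tendsto_order.2 ⟨fun a ha => ?_, fun a ha => ?_⟩
  · -- lower semicontinuity
    obtain ⟨R, δ, hR, hδ, hRδ⟩ := hpar' (r k0 h - a) (by linarith)
    obtain ⟨m, hm⟩ := hcpt δ hδ
    obtain ⟨ℓ, hℓ⟩ := hm k0
    obtain ⟨b, hb1, hb2, hb3⟩ := exists_flat (p k0) (r k0) (hnorm k0) e he δ m ℓ hℓ
    set n0 := (p k0 + r k0) (∑ i, b i • e i) with hn0
    set x : E := ∑ i, (R / n0 * b i) • e i with hx
    have hxR : (p k0 + r k0) x = R := by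
      have h1 : x = (R / n0) • ∑ i, b i • e i := by
        rw [hx, Finset.smul_sum]
        exact Finset.sum_congr rfl fun i _ => by rw [smul_smul]
      rw [h1, map_smul_eq_mul, ← hn0, Real.norm_of_nonneg (by positivity)]
      field_simp
    have hlow := lower_est (p k0) (r k0) x h R δ hxR hδ.le (hb3 _)
    have hΨ : ContinuousAt (fun k => (p k + r k) (x + h) + (p k + r k) (x - h)
        - 2 * (p k + r k) x - 2 * ((p k + r k) h) ^ 2 / (p k + r k) x) k0 := by
      refine ContinuousAt.sub (ContinuousAt.sub (ContinuousAt.add ?_ ?_) ?_)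
        (ContinuousAt.div ?_ ?_ ?_)
      · exact (hcont _).continuousAt
      · exact (hcont _).continuousAt
      · exact continuousAt_const.mul (hcont _).continuousAt
      · exact continuousAt_const.mul ((hcont _).continuousAt.pow 2)
      · exact (hcont _).continuousAt
      · rw [hxR]; exact hR.ne'
    have hΨ0 : 2 * a < (p k0 + r k0) (x + h) + (p k0 + r k0) (x - h)
        - 2 * (p k0 + r k0) x - 2 * ((p k0 + r k0) h) ^ 2 / (p k0 + r k0) x := by
      rw [hxR]; linarith
    have hpos : ∀ᶠ k in 𝓝 k0, 0 < (p k + r k) x :=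
      (hcont x).continuousAt.eventually (lt_mem_nhds (by show 0 < (p k0 + r k0) x; rw [hxR]; exact hR))
    filter_upwards [hΨ.eventually (lt_mem_nhds hΨ0), hpos] with k hk hkpos
    have := upper_est (p k) (r k) (hpar k) (hrp k) x h _ hkpos rfl
    linarith
  · -- upper semicontinuity
    obtain ⟨R, δ, hR, hδ, hRδ⟩ := hpar' (a - r k0 h) (by linarith)
    obtain ⟨m, hm⟩ := hcpt δ hδ
    choose ℓ hℓ using hm
    have hfl := fun k => exists_flat (p k) (r k) (hnorm k) e he δ m (ℓ k) (hℓ k)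
    choose b hb1 hb2 hb3 using hfl
    by_contra hcon
    have hfreq : ∃ᶠ k in 𝓝 k0, a ≤ r k h := by
      intro hc
      exact hcon (hc.mono fun k hk => not_le.1 hk)
    have : NeBot (𝓝 k0 ⊓ 𝓟 {k | a ≤ r k h}) := frequently_mem_iff_neBot.1 hfreq
    set U : Ultrafilter S := Ultrafilter.of (𝓝 k0 ⊓ 𝓟 {k | a ≤ r k h}) with hU
    have hU1 : (U : Filter S) ≤ 𝓝 k0 := (Ultrafilter.of_le _).trans inf_le_left
    have hU2 : ∀ᶠ k in (U : Filter S), a ≤ r k h :=
      le_principal_iff.1 ((Ultrafilter.of_le _).trans inf_le_right)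
    obtain ⟨b0, hb0, hUb⟩ := (isCompact_sphere (0 : Fin (m + 1) → ℝ) 1).ultrafilter_le_nhds
      (U.map b) (by
        rw [le_principal_iff]
        exact Filter.mem_map.2 (Filter.univ_mem' fun k => by
          simp [hb1 k]))
    have hUb' : Tendsto b (U : Filter S) (𝓝 b0) := hUb
    have hid : Tendsto (fun k : S => k) (U : Filter S) (𝓝 k0) := hU1
    -- the norms
    have hn : Tendsto (fun k => (p k + r k) (0 + ∑ i, b k i • e i)) (U : Filter S)
        (𝓝 ((p k0 + r k0) (0 + ∑ i, b0 i • e i))) :=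
      ((joint_cont (fun k => p k + r k) hcont (fun i : Fin (m + 1) => e i) 0).tendsto
        (k0, b0)).comp (hid.prodMk_nhds hUb')
    simp only [zero_add] at hn
    have hn0 : 0 < (p k0 + r k0) (∑ i, b0 i • e i) := by
      have h1 : (p k0 + r k0) (∑ i, b0 i • e i) ≠ 0 := by
        intro h0
        have h2 : 0 ≤ p k0 (∑ i, b0 i • e i) := apply_nonneg _ _
        have h3 : 0 ≤ r k0 (∑ i, b0 i • e i) := apply_nonneg _ _
        have h4 : p k0 (∑ i, b0 i • e i) + r k0 (∑ i, b0 i • e i) = 0 := h0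
        have h5 := hnorm k0 _ (by linarith : p k0 (∑ i, b0 i • e i) = 0)
        have h6 : LinearIndependent ℝ (fun i : Fin (m + 1) => e i) :=
          he.comp _ Fin.val_injective
        have h7 : b0 = 0 := by
          funext i
          exact Fintype.linearIndependent_iff.1 h6 b0 h5 i
        rw [h7] at hb0
        simp at hb0
      exact lt_of_le_of_ne (apply_nonneg _ _) (Ne.symm h1)
    set c : S → Fin (m + 1) → ℝ :=
      fun k i => R / (p k + r k) (∑ i, b k i • e i) * b k i with hc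
    set c0 : Fin (m + 1) → ℝ := fun i => R / (p k0 + r k0) (∑ i, b0 i • e i) * b0 i with hc0
    have hclim : Tendsto c (U : Filter S) (𝓝 c0) := by
      rw [tendsto_pi_nhds]
      intro i
      exact (tendsto_const_nhds.div hn hn0.ne').mul ((tendsto_pi_nhds.1 hUb') i)
    have hxR : ∀ k, (p k + r k) (∑ i, c k i • e i) = R := by
      intro k
      have h1 : ∑ i, c k i • e i =
          (R / (p k + r k) (∑ i, b k i • e i)) • ∑ i, b k i • e i := by
        rw [Finset.smul_sum]
        exact Finset.sum_congr rfl fun i _ => by rw [smul_smul]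
      have := hb2 k
      rw [h1, map_smul_eq_mul, Real.norm_of_nonneg (by positivity)]
      field_simp
    have hxR0 : (p k0 + r k0) (∑ i, c0 i • e i) = R := by
      have h1 : ∑ i, c0 i • e i =
          (R / (p k0 + r k0) (∑ i, b0 i • e i)) • ∑ i, b0 i • e i := by
        rw [Finset.smul_sum]
        exact Finset.sum_congr rfl fun i _ => by rw [smul_smul]
      rw [h1, map_smul_eq_mul, Real.norm_of_nonneg (by positivity)]
      field_simp
    have hlim : ∀ h' : E, Tendsto (fun k => (p k + r k) (h' + ∑ i, c k i • e i)) (U : Filter S)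
        (𝓝 ((p k0 + r k0) (h' + ∑ i, c0 i • e i))) := fun h' =>
      ((joint_cont (fun k => p k + r k) hcont (fun i : Fin (m + 1) => e i) h').tendsto
        (k0, c0)).comp (hid.prodMk_nhds hclim)
    have hneg : ∀ (k : S) (x : E), (p k + r k) (x - h) = (p k + r k) (-h + x) := by
      intro k x; rw [neg_add_eq_sub]
    have hT := ((hlim h).add (hlim (-h))).sub_const (2 * R) |>.add_const (4 * (δ * R))
    have hT0 : (p k0 + r k0) (h + ∑ i, c0 i • e i) + (p k0 + r k0) (-h + ∑ i, c0 i • e i)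
        - 2 * R + 4 * (δ * R) < 2 * a := by
      have := upper_est (p k0) (r k0) (hpar k0) (hrp k0) (∑ i, c0 i • e i) h R hR hxR0
      rw [hneg, add_comm (∑ i, c0 i • e i) h] at this
      linarith
    have hev := hT.eventually (gt_mem_nhds hT0)
    obtain ⟨k, hk1, hk2⟩ := (hev.and hU2).exists
    have := lower_est (p k) (r k) (∑ i, c k i • e i) h R δ (hxR k) hδ.le (hb3 k _)
    rw [hneg, add_comm (∑ i, c k i • e i) h] at this
    linarith

end Pool.Agent.Q100.Rec
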