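import Pool.Agent.Q100.Rec.Final

/-!
The statement of the theorem with named instances.
-/

namespace Pool.Agent.Q100.Rec

/-- The Banach space `X_p`: the completion of `c₀₀` with the seminorm `p` (this is the completion
of the quotient normed space `c₀₀ / N_p`). -/
def Space (p : Code) : Type := UniformSpace.Completion (Pre p)

noncomputable instance (p : Code) : NormedAddCommGroup (Space p) :=
  UniformSpace.Completion.instNormedAddCommGroup (Pre p)

noncomputable instance (p : Code) : NormedSpace ℝ (Space p) :=
  UniformSpace.Completion.instNormedSpace ℝ (Pre p)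

/-- `P_∞`: the codes of infinite-dimensional spaces. -/
def CodesInf : Type := {p : Code // ¬ FiniteDimensional ℝ (Space p)}

noncomputable instance : TopologicalSpace CodesInf :=
  TopologicalSpace.induced Subtype.val inferInstance

/-- `B`: the codes in `P_∞` which are norms on `c₀₀`. -/
def NormCodes : Type := {p : Code // ¬ FiniteDimensional ℝ (Space p) ∧ ∀ x, p.val x = 0 → x = 0}

noncomputable instance : TopologicalSpace NormCodes :=
  TopologicalSpace.induced Subtype.val inferInstance

/-- There is a surjective linear isometry `X_p → X_q`. -/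
def Isometric (p q : Code) : Prop := Nonempty (Space p ≃ₗᵢ[ℝ] Space q)

/-- There is a linear isometry of `X_p` into `X_q`. -/
def Embeds (p q : Code) : Prop := Nonempty (Space p →ₗᵢ[ℝ] Space q)

theorem main' : ¬ ∃ Φ : CodesInf → NormCodes, Continuous Φ ∧ ∀ μ, Embeds (Φ μ).1 μ.1 := by
  have h := main (HilbertBasis.ofRepr
    (LinearIsometryEquiv.refl ℝ (lp (fun _ : ℕ => ℝ) 2)))
  rintro ⟨Φ, hΦ, hJ⟩
  exact h ⟨Φ, hΦ, hJ⟩

end Pool.Agent.Q100.Rec
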