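import Pool.Agent.Q100.Rec.Recog

/-!
The tower of compact seminorms and the continuity of the squares of the coordinates.
-/

open Set Filter Topology Metric
open scoped InnerProductSpace

namespace Pool.Agent.Q100.Rec

/-- Continuity of the coefficients of a bounded family of power series. -/
theorem cont_of_gen {S : Type*} [TopologicalSpace S] (w : ℕ → ℝ) (hw0 : ∀ i, 0 < w i)
    (hw1 : ∀ i, w i ≤ 1 / 2) (hw : Tendsto w atTop (𝓝 0)) (C : ℝ) (n : ℕ) :
    ∀ u : ℕ → S → ℝ, (∀ n k, |u n k| ≤ C) →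
      (∀ i, Continuous fun k => ∑' n, u n k * w i ^ n) → Continuous (u n) := by
  have hbase : ∀ u : ℕ → S → ℝ, (∀ n k, |u n k| ≤ C) →
      (∀ i, Continuous fun k => ∑' n, u n k * w i ^ n) → Continuous (u 0) := by
    intro u hb hc
    have hsum : ∀ i k, Summable fun n => u n k * w i ^ n := by
      intro i k
      refine Summable.of_norm_bounded (g := fun n => C * w i ^ n)
        ((summable_geometric_of_lt_one (hw0 i).le (by linarith [hw1 i])).mul_left C) fun n => ?_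
      rw [norm_mul, Real.norm_eq_abs, norm_pow, Real.norm_of_nonneg (hw0 i).le]
      have := hb n k
      have := (hw0 i).le
      gcongr
    have hunif : TendstoUniformly (fun i k => ∑' n, u n k * w i ^ n) (u 0) atTop := by
      rw [Metric.tendstoUniformly_iff]
      intro ε hε
      have h1 : Tendsto (fun i => 2 * C * w i) atTop (𝓝 (2 * C * 0)) := hw.const_mul _
      rw [mul_zero] at h1
      filter_upwards [h1.eventually (gt_mem_nhds hε)] with i hi k
      rw [dist_comm, Real.dist_eq, (hsum i k).tsum_eq_zero_add]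
      simp only [pow_zero, mul_one, add_sub_cancel_left]
      refine lt_of_le_of_lt ?_ hi
      have hC : 0 ≤ C := (abs_nonneg _).trans (hb 0 k)
      have h2 : ∀ n, ‖u (n + 1) k * w i ^ (n + 1)‖ ≤ C * w i * w i ^ n := by
        intro n
        rw [norm_mul, Real.norm_eq_abs, norm_pow, Real.norm_of_nonneg (hw0 i).le, pow_succ]
        have h3 := hb (n + 1) k
        have h4 := (hw0 i).le
        calc |u (n + 1) k| * (w i ^ n * w i) ≤ C * (w i ^ n * w i) := by gcongr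
          _ = C * w i * w i ^ n := by ring
      have h3 : HasSum (fun n => C * w i * w i ^ n) (C * w i * (1 - w i)⁻¹) :=
        (hasSum_geometric_of_lt_one (hw0 i).le (by linarith [hw1 i])).mul_left _
      have h4 := tsum_of_norm_bounded h3 h2
      rw [Real.norm_eq_abs] at h4
      refine h4.trans ?_
      have h5 : (1 - w i)⁻¹ ≤ 2 := by
        rw [inv_le_comm₀ (by linarith [hw1 i]) (by norm_num)]
        linarith [hw1 i]
      have h6 : 0 ≤ C * w i := mul_nonneg hC (hw0 i).le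
      nlinarith
    exact hunif.continuous (Frequently.of_forall hc)
  induction n with
  | zero => exact hbase
  | succ n ih =>
    intro u hb hc
    refine ih (fun n => u (n + 1)) (fun n k => hb _ _) fun i => ?_
    have hsum : ∀ k, Summable fun n => u n k * w i ^ n := by
      intro k
      refine Summable.of_norm_bounded (g := fun n => C * w i ^ n)
        ((summable_geometric_of_lt_one (hw0 i).le (by linarith [hw1 i])).mul_left C) fun n => ?_
      rw [norm_mul, Real.norm_eq_abs, norm_pow, Real.norm_of_nonneg (hw0 i).le]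
      have := hb n k
      have := (hw0 i).le
      gcongr
    have h1 : (fun k => ∑' n, u (n + 1) k * w i ^ n) =
        fun k => ((∑' n, u n k * w i ^ n) - u 0 k) / w i := by
      funext k
      rw [(hsum k).tsum_eq_zero_add]
      simp only [pow_zero, mul_one, add_sub_cancel_left]
      rw [eq_div_iff (hw0 i).ne', ← tsum_mul_right]
      exact tsum_congr fun n => by rw [pow_succ]; ring
    rw [h1]
    exact ((hc i).sub (hbase u hb hc)).div_const _

variable {H : Type*} [NormedAddCommGroup H] [InnerProductSpace ℝ H] [CompleteSpace H]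

/-- The weights `4 ^ (-(n+1))`. -/
noncomputable def cw (n : ℕ) : ℝ := (1 / 4) ^ (n + 1)

lemma cw_pos (n : ℕ) : 0 < cw n := by unfold cw; positivity

lemma cw_hasSum (m : ℕ) : HasSum (fun n => cw (m + n)) ((1 / 4) ^ m * (1 / 3)) := by
  have h := (hasSum_geometric_of_lt_one (r := (1 / 4 : ℝ)) (by norm_num) (by norm_num)).mul_left
    ((1 / 4 : ℝ) ^ (m + 1))
  have h2 : (1 / 4 : ℝ) ^ (m + 1) * (1 - 1 / 4)⁻¹ = (1 / 4) ^ m * (1 / 3) := by
    rw [pow_succ]; norm_num; ring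
  rw [h2] at h
  have h3 : (fun n => cw (m + n)) = fun n => (1 / 4 : ℝ) ^ (m + 1) * (1 / 4) ^ n := by
    funext n
    unfold cw
    rw [← pow_add]
    congr 1
    ring
  rw [h3]
  exact h

lemma cw_summable : Summable cw := by
  have := (cw_hasSum 0).summable
  simpa using this

/-- The rank one terms of the operators below. -/
noncomputable def term (b : HilbertBasis ℕ ℝ H) (y : ℕ → H) (n : ℕ) : H →L[ℝ] H :=
  cw n • (innerSL ℝ (y n)).smulRight (b n)

omit [CompleteSpace H] in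
lemma term_apply (b : HilbertBasis ℕ ℝ H) (y : ℕ → H) (n : ℕ) (x : H) :
    term b y n x = (cw n * ⟪y n, x⟫_ℝ) • b n := by
  simp [term, smul_smul]

omit [CompleteSpace H] in
lemma norm_term_le (b : HilbertBasis ℕ ℝ H) (y : ℕ → H) (hy : ∀ n, ‖y n‖ ≤ 2) (n : ℕ) :
    ‖term b y n‖ ≤ 2 * cw n := by
  refine ContinuousLinearMap.opNorm_le_bound _ (by have := cw_pos n; positivity) fun x => ?_
  rw [term_apply, norm_smul, b.orthonormal.1 n, mul_one, norm_mul,
    Real.norm_of_nonneg (cw_pos n).le]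
  have h1 : ‖⟪y n, x⟫_ℝ‖ ≤ 2 * ‖x‖ := (norm_inner_le_norm _ _).trans (by gcongr; exact hy n)
  have := cw_pos n
  calc cw n * ‖⟪y n, x⟫_ℝ‖ ≤ cw n * (2 * ‖x‖) := by gcongr
    _ = 2 * cw n * ‖x‖ := by ring

lemma term_summable (b : HilbertBasis ℕ ℝ H) (y : ℕ → H) (hy : ∀ n, ‖y n‖ ≤ 2) :
    Summable (term b y) :=
  Summable.of_norm_bounded (cw_summable.mul_left 2) (norm_term_le b y hy)

/-- The operator `x ↦ ∑ cw n ⟪y n, x⟫ b n`. -/
noncomputable def Xi (b : HilbertBasis ℕ ℝ H) (y : ℕ → H) : H →L[ℝ] H := ∑' n, term b y n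

lemma Xi_apply (b : HilbertBasis ℕ ℝ H) (y : ℕ → H) (hy : ∀ n, ‖y n‖ ≤ 2) (x : H) :
    HasSum (fun n => (cw n * ⟪y n, x⟫_ℝ) • b n) (Xi b y x) := by
  have h := (term_summable b y hy).hasSum
  have h2 := (ContinuousLinearMap.apply ℝ H x).hasSum h
  refine h2.congr_fun ?_ |> id
  intro n
  simp [term_apply]

lemma inner_Xi (b : HilbertBasis ℕ ℝ H) (y : ℕ → H) (hy : ∀ n, ‖y n‖ ≤ 2) (x : H) (m : ℕ) :
    ⟪b m, Xi b y x⟫_ℝ = cw m * ⟪y m, x⟫_ℝ := by
  have h := (innerSL ℝ (b m)).hasSum (Xi_apply b y hy x)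
  have h2 : HasSum (fun n => (innerSL ℝ (b m)) ((cw n * ⟪y n, x⟫_ℝ) • b n))
      (cw m * ⟪y m, x⟫_ℝ) := by
    have h3 : (fun n => (innerSL ℝ (b m)) ((cw n * ⟪y n, x⟫_ℝ) • b n)) =
        fun n => if n = m then cw m * ⟪y m, x⟫_ℝ else 0 := by
      funext n
      rw [map_smul, innerSL_apply_apply, orthonormal_iff_ite.1 b.orthonormal m n]
      by_cases hnm : n = m
      · subst hnm; simp
      · rw [if_neg hnm, if_neg (Ne.symm hnm), smul_zero]
    rw [h3]
    exact hasSum_ite_eq m _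
  exact h.unique h2

lemma norm_Xi_le (b : HilbertBasis ℕ ℝ H) (y : ℕ → H) (hy : ∀ n, ‖y n‖ ≤ 2) (x : H) (m : ℕ)
    (hx : ∀ n < m, ⟪y n, x⟫_ℝ = 0) : ‖Xi b y x‖ ≤ (1 / 4) ^ m * ‖x‖ := by
  have h1 := Xi_apply b y hy x
  have h2 : HasSum (fun n => (cw (m + n) * ⟪y (m + n), x⟫_ℝ) • b (m + n)) (Xi b y x) := by
    have h3 := (hasSum_nat_add_iff' m).2 h1
    have h4 : ∑ i ∈ Finset.range m, (cw i * ⟪y i, x⟫_ℝ) • b i = 0 :=
      Finset.sum_eq_zero fun i hi => by
        rw [hx i (Finset.mem_range.1 hi), mul_zero, zero_smul]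
    rw [h4, sub_zero] at h3
    simpa [add_comm] using h3
  have h3 : HasSum (fun n => 2 * ‖x‖ * cw (m + n)) (2 * ‖x‖ * ((1 / 4) ^ m * (1 / 3))) :=
    (cw_hasSum m).mul_left _
  have h4 := tsum_of_norm_bounded h3 (f := fun n => (cw (m + n) * ⟪y (m + n), x⟫_ℝ) • b (m + n))
    (fun n => by
      rw [norm_smul, b.orthonormal.1, mul_one, norm_mul, Real.norm_of_nonneg (cw_pos _).le]
      have h5 : ‖⟪y (m + n), x⟫_ℝ‖ ≤ 2 * ‖x‖ :=
        (norm_inner_le_norm _ _).trans (by gcongr; exact hy _)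
      have := cw_pos (m + n)
      calc cw (m + n) * ‖⟪y (m + n), x⟫_ℝ‖ ≤ cw (m + n) * (2 * ‖x‖) := by gcongr
        _ = 2 * ‖x‖ * cw (m + n) := by ring)
  rw [h2.tsum_eq] at h4
  have h5 : 0 ≤ (1 / 4 : ℝ) ^ m * ‖x‖ := by positivity
  calc ‖Xi b y x‖ ≤ 2 * ‖x‖ * ((1 / 4) ^ m * (1 / 3)) := h4
    _ = 2 / 3 * ((1 / 4) ^ m * ‖x‖) := by ring
    _ ≤ (1 / 4) ^ m * ‖x‖ := by linarith

omit [CompleteSpace H] in
lemma basis_bound (b : HilbertBasis ℕ ℝ H) : ∀ n, ‖b n‖ ≤ 2 := fun n => by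
  rw [b.orthonormal.1 n]; norm_num

/-- The diagonal operator. -/
noncomputable def Dg (b : HilbertBasis ℕ ℝ H) : H →L[ℝ] H := Xi b b

lemma norm_Dg_le (b : HilbertBasis ℕ ℝ H) (x : H) : ‖Dg b x‖ ≤ ‖x‖ := by
  have := norm_Xi_le b b (basis_bound b) x 0 (by simp)
  rw [pow_zero, one_mul] at this
  exact this

lemma norm_Dg_pow_le (b : HilbertBasis ℕ ℝ H) (x : H) (l : ℕ) : ‖(Dg b ^ l) x‖ ≤ ‖x‖ := by
  induction l with
  | zero => simp
  | succ l ih =>
    rw [pow_succ']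
    exact (norm_Dg_le b _).trans ih

lemma rho_summable (b : HilbertBasis ℕ ℝ H) (x : H) :
    Summable fun l : ℕ => (1 / 2 : ℝ) ^ (l + 1) * ‖(Dg b ^ l) x‖ := by
  have h1 : Summable fun l : ℕ => (1 / 2 : ℝ) ^ (l + 1) * ‖x‖ := by
    have := (summable_geometric_of_lt_one (r := (1 / 2 : ℝ)) (by norm_num) (by norm_num)).mul_left
      ((1 / 2 : ℝ) * ‖x‖)
    refine this.congr fun l => ?_
    rw [pow_succ]; ring
  refine Summable.of_nonneg_of_le (fun l => by positivity) (fun l => ?_) h1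
  have := norm_Dg_pow_le b x l
  gcongr

/-- The seminorm `∑ 2^{-(l+1)} ‖D^l x‖`. -/
noncomputable def rho (b : HilbertBasis ℕ ℝ H) : Seminorm ℝ H :=
  Seminorm.of (fun x => ∑' l : ℕ, (1 / 2 : ℝ) ^ (l + 1) * ‖(Dg b ^ l) x‖)
    (fun x y => by
      rw [← (rho_summable b x).tsum_add (rho_summable b y)]
      refine (rho_summable b (x + y)).tsum_le_tsum (fun l => ?_)
        ((rho_summable b x).add (rho_summable b y))
      rw [map_add, ← mul_add]
      have := norm_add_le ((Dg b ^ l) x) ((Dg b ^ l) y)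
      gcongr)
    (fun c x => by
      rw [← tsum_mul_left]
      refine tsum_congr fun l => ?_
      rw [map_smul, norm_smul]; ring)

lemma rho_apply (b : HilbertBasis ℕ ℝ H) (x : H) :
    rho b x = ∑' l : ℕ, (1 / 2 : ℝ) ^ (l + 1) * ‖(Dg b ^ l) x‖ := rfl

lemma rho_le (b : HilbertBasis ℕ ℝ H) (x : H) : rho b x ≤ ‖x‖ := by
  rw [rho_apply]
  have h1 : HasSum (fun l : ℕ => (1 / 2 : ℝ) ^ (l + 1) * ‖x‖) ‖x‖ := by
    have h := (hasSum_geometric_of_lt_one (r := (1 / 2 : ℝ)) (by norm_num) (by norm_num)).mul_left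
      ((1 / 2 : ℝ) * ‖x‖)
    have h2 : (1 / 2 : ℝ) * ‖x‖ * (1 - 1 / 2)⁻¹ = ‖x‖ := by ring
    rw [h2] at h
    have h3 : (fun l : ℕ => (1 / 2 : ℝ) ^ (l + 1) * ‖x‖) =
        fun l => (1 / 2 : ℝ) * ‖x‖ * (1 / 2) ^ l := by
      funext l
      rw [pow_succ]; ring
    rw [h3]
    exact h
  refine (rho_summable b x).tsum_le_of_sum_le ?_ |> id
  intro s
  refine (Finset.sum_le_sum fun l _ => ?_).trans (sum_le_hasSum s (fun l _ => by positivity) h1)
  have := norm_Dg_pow_le b x l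
  gcongr

lemma two_rho (b : HilbertBasis ℕ ℝ H) (x : H) : 2 * rho b x = ‖x‖ + rho b (Dg b x) := by
  rw [rho_apply, rho_apply, (rho_summable b x).tsum_eq_zero_add, mul_add, ← tsum_mul_left]
  congr 1
  · simp
  · refine tsum_congr fun l => ?_
    have h1 : (Dg b ^ (l + 1)) x = (Dg b ^ l) (Dg b x) := by rw [pow_succ]; rfl
    rw [h1, pow_succ (1 / 2 : ℝ) (l + 1)]
    ring

lemma inner_Dg_pow (b : HilbertBasis ℕ ℝ H) (x : H) (i n : ℕ) :
    ⟪b n, (Dg b ^ i) x⟫_ℝ = cw n ^ i * ⟪b n, x⟫_ℝ := by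
  induction i with
  | zero => simp
  | succ i ih =>
    have h1 : (Dg b ^ (i + 1)) x = Dg b ((Dg b ^ i) x) := by rw [pow_succ']; rfl
    rw [h1, Dg, inner_Xi b b (basis_bound b), ← Dg, ih, pow_succ]
    ring

omit [CompleteSpace H] in
lemma parallelogram_comp {E : Type*} [AddCommGroup E] [Module ℝ E] (A : E →ₗ[ℝ] H) (x y : E) :
    (((normSeminorm ℝ H).comp A) (x + y)) ^ 2 + (((normSeminorm ℝ H).comp A) (x - y)) ^ 2 =
      2 * (((normSeminorm ℝ H).comp A) x) ^ 2 + 2 * (((normSeminorm ℝ H).comp A) y) ^ 2 := by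
  simp only [Seminorm.comp_apply, coe_normSeminorm, map_add, map_sub]
  have := parallelogram_law_with_norm ℝ (A x) (A y)
  nlinarith

variable {S : Type*} [TopologicalSpace S] {E : Type*} [AddCommGroup E] [Module ℝ E]

lemma step (b : HilbertBasis ℕ ℝ H) (A : S → (E →ₗ[ℝ] H))
    (hcont : ∀ v, Continuous fun k => rho b (A k v)) (hsep : ∀ k v, A k v = 0 → v = 0)
    (e : ℕ → E) (he : LinearIndependent ℝ e) (v : E) :
    Continuous fun k => rho b (Dg b (A k v)) := by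
  refine recog (fun k => (normSeminorm ℝ H).comp (A k))
    (fun k => ((rho b).comp (Dg b : H →ₗ[ℝ] H)).comp (A k)) (fun k => parallelogram_comp (A k))
    ?_ ?_ ?_ e he ?_ v
  · intro v
    have h1 : (fun k => ((normSeminorm ℝ H).comp (A k) +
        ((rho b).comp (Dg b : H →ₗ[ℝ] H)).comp (A k)) v) = fun k => 2 * rho b (A k v) := by
      funext k
      rw [two_rho]
      rfl
    rw [h1]
    exact continuous_const.mul (hcont v)
  · intro k v hv
    exact hsep k v (norm_eq_zero.1 hv)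
  · intro k v
    exact (rho_le b _).trans (norm_Dg_le b _)
  · intro δ hδ
    obtain ⟨m, hm⟩ := exists_pow_lt_of_lt_one hδ (by norm_num : (1 / 4 : ℝ) < 1)
    refine ⟨m, fun k => ⟨LinearMap.pi fun n : Fin m => (innerₛₗ ℝ (b n)) ∘ₗ A k, fun x hx => ?_⟩⟩
    have h1 : ∀ n < m, ⟪b n, A k x⟫_ℝ = 0 := by
      intro n hn
      exact congrFun hx ⟨n, hn⟩
    have h2 := norm_Xi_le b b (basis_bound b) (A k x) m h1
    have h3 : rho b (Dg b (A k x)) ≤ ‖Dg b (A k x)‖ := rho_le b _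
    calc rho b (Dg b (A k x)) ≤ (1 / 4) ^ m * ‖A k x‖ := h3.trans h2
      _ ≤ δ * ‖A k x‖ := by gcongr

/-- **Tower theorem.** -/
theorem tower [CompactSpace S] (b : HilbertBasis ℕ ℝ H) (y : ℕ → H) (hy : ∀ n, ‖y n‖ ≤ 2)
    (τ : S → (E →ₗ[ℝ] H))
    (hcont : ∀ v, Continuous fun k => ‖τ k v‖ + rho b (Xi b y (τ k v)))
    (hsep : ∀ k v, (∀ n, ⟪y n, τ k v⟫_ℝ = 0) → v = 0)
    (e : ℕ → E) (he : LinearIndependent ℝ e) (v : E) :
    (Continuous fun k => ‖τ k v‖) ∧ ∀ n, Continuous fun k => ⟪y n, τ k v⟫_ℝ ^ 2 := by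
  -- first step
  have h0 : ∀ v, Continuous fun k => rho b (Xi b y (τ k v)) := by
    intro v
    refine recog (fun k => (normSeminorm ℝ H).comp (τ k))
      (fun k => ((rho b).comp (Xi b y : H →ₗ[ℝ] H)).comp (τ k))
      (fun k => parallelogram_comp (τ k)) hcont ?_ ?_ e he ?_ v
    · intro k v hv
      refine hsep k v fun n => ?_
      have : τ k v = 0 := norm_eq_zero.1 hv
      rw [this, inner_zero_right]
    · intro k v
      have h1 := norm_Xi_le b y hy (τ k v) 0 (by simp)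
      rw [pow_zero, one_mul] at h1
      exact (rho_le b _).trans h1
    · intro δ hδ
      obtain ⟨m, hm⟩ := exists_pow_lt_of_lt_one hδ (by norm_num : (1 / 4 : ℝ) < 1)
      refine ⟨m, fun k => ⟨LinearMap.pi fun n : Fin m => (innerₛₗ ℝ (y n)) ∘ₗ τ k,
        fun x hx => ?_⟩⟩
      have h1 : ∀ n < m, ⟪y n, τ k x⟫_ℝ = 0 := by
        intro n hn
        exact congrFun hx ⟨n, hn⟩
      have h2 := norm_Xi_le b y hy (τ k x) m h1
      have h3 : rho b (Xi b y (τ k x)) ≤ ‖Xi b y (τ k x)‖ := rho_le b _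
      calc rho b (Xi b y (τ k x)) ≤ (1 / 4) ^ m * ‖τ k x‖ := h3.trans h2
        _ ≤ δ * ‖τ k x‖ := by gcongr
  have hnorm : Continuous fun k => ‖τ k v‖ := by
    have h1 := (hcont v).sub (h0 v)
    have h2 : (fun k => ‖τ k v‖) = fun k =>
        (‖τ k v‖ + rho b (Xi b y (τ k v))) - rho b (Xi b y (τ k v)) := by
      funext k; ring
    rw [h2]
    exact h1
  refine ⟨hnorm, ?_⟩
  -- the tower
  have hcoord : ∀ i n k v, ⟪b n, (Dg b ^ i) (Xi b y (τ k v))⟫_ℝ =
      cw n ^ (i + 1) * ⟪y n, τ k v⟫_ℝ := by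
    intro i n k v
    rw [inner_Dg_pow, inner_Xi b y hy, pow_succ]
    ring
  have hsep' : ∀ i k v, (Dg b ^ i) (Xi b y (τ k v)) = 0 → v = 0 := by
    intro i k v hv
    refine hsep k v fun n => ?_
    have h1 := hcoord i n k v
    rw [hv, inner_zero_right] at h1
    have h2 := pow_pos (cw_pos n) (i + 1)
    rcases mul_eq_zero.1 h1.symm with h3 | h3
    · exact absurd h3 h2.ne'
    · exact h3
  have hrho : ∀ i v, Continuous fun k => rho b ((Dg b ^ i) (Xi b y (τ k v))) := by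
    intro i
    induction i with
    | zero => simpa using h0
    | succ i ih =>
      intro v
      have h1 := step b (fun k => ((Dg b ^ i : H →L[ℝ] H) : H →ₗ[ℝ] H) ∘ₗ
        ((Xi b y : H →ₗ[ℝ] H) ∘ₗ τ k)) ih (hsep' i) e he v
      have h2 : ∀ z, (Dg b ^ (i + 1)) z = Dg b ((Dg b ^ i) z) := by
        intro z; rw [pow_succ']; rfl
      simp only [h2]
      exact h1
  have hnn : ∀ i, Continuous fun k => ‖(Dg b ^ i) (Xi b y (τ k v))‖ := by
    intro i
    have h1 := ((hrho i v).const_mul 2).sub (hrho (i + 1) v)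
    have h2 : ∀ k, 2 * rho b ((Dg b ^ i) (Xi b y (τ k v))) -
        rho b ((Dg b ^ (i + 1)) (Xi b y (τ k v))) = ‖(Dg b ^ i) (Xi b y (τ k v))‖ := by
      intro k
      have h3 : (Dg b ^ (i + 1)) (Xi b y (τ k v)) = Dg b ((Dg b ^ i) (Xi b y (τ k v))) := by
        rw [pow_succ']; rfl
      rw [two_rho, h3]; ring
    have h4 : (fun k => ‖(Dg b ^ i) (Xi b y (τ k v))‖) = fun k =>
        2 * rho b ((Dg b ^ i) (Xi b y (τ k v))) -
        rho b ((Dg b ^ (i + 1)) (Xi b y (τ k v))) := by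
      funext k; exact (h2 k).symm
    rw [h4]
    exact h1
  -- bounds
  obtain ⟨M, hM⟩ : ∃ M, ∀ k, ‖τ k v‖ ≤ M := by
    obtain ⟨M, hM⟩ := (isCompact_range hnorm).bddAbove
    exact ⟨M, fun k => hM ⟨k, rfl⟩⟩
  intro n
  refine cont_of_gen (fun i => (1 / 16 : ℝ) ^ (i + 1)) (fun i => by positivity) (fun i => ?_) ?_
    ((2 * M) ^ 2) n (fun n k => ⟪y n, τ k v⟫_ℝ ^ 2) (fun n k => ?_) (fun i => ?_)
  · calc (1 / 16 : ℝ) ^ (i + 1) ≤ (1 / 16) ^ 1 :=
        pow_le_pow_of_le_one (by norm_num) (by norm_num) (by omega)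
      _ ≤ 1 / 2 := by norm_num
  · exact (tendsto_pow_atTop_nhds_zero_of_lt_one (by norm_num) (by norm_num)).comp
      (tendsto_add_atTop_nat 1)
  · rw [abs_of_nonneg (sq_nonneg _)]
    have h1 : |⟪y n, τ k v⟫_ℝ| ≤ 2 * M := by
      have h2 := abs_real_inner_le_norm (y n) (τ k v)
      have h3 : ‖y n‖ * ‖τ k v‖ ≤ 2 * M := by
        have := hy n
        have := hM k
        gcongr
      exact h2.trans h3
    exact sq_le_sq' (by have := neg_le_of_abs_le h1; linarith) (le_of_abs_le h1)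
  · have h1 : (fun k => ∑' n, ⟪y n, τ k v⟫_ℝ ^ 2 * ((1 / 16 : ℝ) ^ (i + 1)) ^ n) =
        fun k => ‖(Dg b ^ i) (Xi b y (τ k v))‖ ^ 2 / (1 / 16 : ℝ) ^ (i + 1) := by
      funext k
      have h2 := b.hasSum_inner_mul_inner ((Dg b ^ i) (Xi b y (τ k v)))
        ((Dg b ^ i) (Xi b y (τ k v)))
      rw [real_inner_self_eq_norm_sq] at h2
      rw [← h2.tsum_eq, ← tsum_div_const]
      refine tsum_congr fun n => ?_
      rw [real_inner_comm (b n), hcoord]
      have h3 : cw n ^ (i + 1) * cw n ^ (i + 1) =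
          ((1 / 16 : ℝ) ^ (i + 1)) ^ n * (1 / 16 : ℝ) ^ (i + 1) := by
        unfold cw
        rw [← pow_succ, ← pow_mul, ← pow_add, ← pow_mul,
          show (1 / 16 : ℝ) = (1 / 4) ^ 2 by norm_num, ← pow_mul]
        congr 1
        ring
      rw [eq_div_iff (by positivity)]
      linear_combination (-(⟪y n, τ k v⟫_ℝ ^ 2)) * h3
    rw [h1]
    exact ((hnn i).pow 2).div_const _

end Pool.Agent.Q100.Rec
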